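import Pool.Agent.LibCoc63.Cls
import Pool.Agent.LibCoc63.RTDefs

/-!
[COCU U1] Restriction of classes from B to B'. Everything is composition with g ↦ g.restrictScalars B; continuity is
preserved because (g.restrictScalars B) t = g t. res_S: the same ξ, χ, k computes both (`S_eq`, `comp_exists`).
isCls_res: A' g = A (g.restrictScalars B).
-/

set_option autoImplicit false

open Finset Module Pool.Agent.LibCoc63

namespace Pool.Agent.LibCocU

variable {B B' Ω : Type*} [Field B] [Field B'] [Field Ω] [Algebra B B'] [Algebra B Ω]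
  [Algebra B' Ω] [IsScalarTower B B' Ω]

theorem cts_restrict {Y : Type*} {f : (Ω ≃ₐ[B] Ω) → Y} (hf : Cts f) :
    Cts (fun g : Ω ≃ₐ[B'] Ω => f (g.restrictScalars B)) := by
  obtain ⟨T, hT⟩ := hf
  exact ⟨T, fun g g' h => hT _ _ h⟩

variable (B B' Ω) in
/-- The restriction of classes. -/
noncomputable def res : V B Ω →* V B' Ω :=
  QuotientGroup.map (Cob B Ω) (Cob B' Ω)
    { toFun := fun c g h => c (g.restrictScalars B) (h.restrictScalars B)
      map_one' := rfl
      map_mul' := fun _ _ => rfl }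
    (by
      rintro c ⟨β, hβ, rfl⟩
      exact ⟨fun g => β (g.restrictScalars B), cts_restrict hβ, rfl⟩)

theorem res_cl (c : (Ω ≃ₐ[B] Ω) → (Ω ≃ₐ[B] Ω) → Ωˣ) :
    res B B' Ω (cl c) = cl (fun g h => c (g.restrictScalars B) (h.restrictScalars B)) := rfl

/-- The same root of unity over a larger field. -/
def resPR (B' : Type*) [Field B'] [Algebra B B'] [Algebra B' Ω] [IsScalarTower B B' Ω] {m : ℕ}
    (z : PR B Ω m) : PR B' Ω m :=
  ⟨z.ζ, z.pos, z.prim, fun g => z.fix (g.restrictScalars B)⟩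

theorem res_S [IsAlgClosed Ω] {m : ℕ} (z : PR B Ω m) (u w : Bˣ) :
    res B B' Ω (S z (cst Ω Unit u) (cst Ω Unit w)) =
      S (resPR B' z) (cst Ω Unit (Units.map (algebraMap B B').toMonoidHom u))
        (cst Ω Unit (Units.map (algebraMap B B').toMonoidHom w)) := by
  have e : ∀ u : Bˣ, cst Ω Unit (Units.map (algebraMap B B').toMonoidHom u) = cst Ω Unit u := by
    intro u
    funext x
    ext
    exact (IsScalarTower.algebraMap_apply B B' Ω (u : B)).symm
  obtain ⟨c, hc⟩ := comp_exists z (cst_mem (B := B) (Ω := Ω) Unit u) (cst Ω Unit w)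
  rw [S_eq z (cst_mem Unit w) hc, res_cl]
  obtain ⟨ξ, χ, k, hχ, h1, h2, h3, h4⟩ := hc
  refine (S_eq (resPR B' z) (cst_mem Unit _) ⟨ξ, fun g => χ (g.restrictScalars B),
    fun g h => k (g.restrictScalars B) (h.restrictScalars B), cts_restrict hχ, ?_, ?_, ?_,
    ?_⟩).symm
  · intro x
    rw [e u]
    exact h1 x
  · intro g x
    exact h2 (g.restrictScalars B) x
  · intro g h x
    exact h3 (g.restrictScalars B) (h.restrictScalars B) x
  · intro g h
    rw [e w]
    exact h4 (g.restrictScalars B) (h.restrictScalars B)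

theorem res_mem_W [IsAlgClosed Ω] {m : ℕ} (z : PR B Ω m) {v : V B Ω} (hv : v ∈ W z) :
    res B B' Ω v ∈ W (resPR B' z) := by
  unfold W at hv ⊢
  induction hv using Subgroup.closure_induction with
  | mem v hv =>
    obtain ⟨u, w, rfl⟩ := hv
    rw [res_S]
    exact Subgroup.subset_closure ⟨_, _, rfl⟩
  | one =>
    rw [map_one]
    exact one_mem _
  | mul x y _ _ hx hy =>
    rw [map_mul]
    exact mul_mem hx hy
  | inv x _ hx =>
    rw [map_inv]
    exact inv_mem hx

variable {F : Type*} [Field F] [Algebra F B] [Algebra F B'] [Algebra F Ω] [IsScalarTower F B Ω]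
  [IsScalarTower F B' Ω]
variable {D : Type*} [Ring D] [Algebra F D] {n : Type*} [Fintype n] [DecidableEq n]

theorem isCls_res {ρ : D →ₐ[F] Matrix n n Ω} {v : V B Ω} (h : IsCls B ρ v) :
    IsCls B' ρ (res B B' Ω v) := by
  obtain ⟨A, δ, ⟨hA, h1, h2⟩, rfl⟩ := h
  exact ⟨fun g => A (g.restrictScalars B),
    fun g h => δ (g.restrictScalars B) (h.restrictScalars B),
    ⟨cts_restrict hA, fun g d => h1 (g.restrictScalars B) d,
      fun g h => h2 (g.restrictScalars B) (h.restrictScalars B)⟩, res_cl δ⟩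

end Pool.Agent.LibCocU
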