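import Pool.Agent.LibCoc63.Cls
import Pool.Agent.LibCoc63.RTDefs
import Pool.Agent.LibCocU.Res

/-!
[COCU U2] Corestriction for a finite extension B'/B inside Ω. Emb = embeddings of B' into Ω over B, with the action of
G = Ω ≃ₐ[B] Ω by composition; base = the given embedding; r x ∈ G with r x • base = x (normality: `IsAlgClosed.lift`-type
extension, Ω/B algebraic; e.g. `AlgEquiv.liftNormal`, or `IntermediateField.exists_algHom_of_splits`, `IsAlgClosure.equiv`);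
hh g x = (r x)⁻¹ g r(g⁻¹ x) fixes B', so it is a B'-automorphism. cor c g g' = ∏_x r x (c (hh g x) (hh g' (g⁻¹ x))).
cor of bd β is bd (g ↦ ∏_x r x (β (hh g x))) (hh_mul, reindex x = g y).
-/

set_option autoImplicit false

open Finset Module Pool.Agent.LibCoc63

namespace Pool.Agent.LibCocU

/-- The embeddings of `B'` into `Ω` over `B`. -/
def Emb (B B' Ω : Type*) [Field B] [Field B'] [Field Ω] [Algebra B B'] [Algebra B Ω] : Type _ :=
  B' →ₐ[B] Ω

variable {B B' Ω : Type*} [Field B] [Field B'] [Field Ω] [Algebra B B'] [Algebra B Ω]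

instance instSMulEmb : SMul (Ω ≃ₐ[B] Ω) (Emb B B' Ω) :=
  ⟨fun g x => (g : Ω →ₐ[B] Ω).comp (show B' →ₐ[B] Ω from x)⟩

/-- The value of an embedding. -/
def Emb.ap (x : Emb B B' Ω) (t : B') : Ω := (show B' →ₐ[B] Ω from x) t

theorem Emb.ap_smul (g : Ω ≃ₐ[B] Ω) (x : Emb B B' Ω) (t : B') : (g • x).ap t = g (x.ap t) := rfl

theorem Emb.ext {x y : Emb B B' Ω} (h : ∀ t, x.ap t = y.ap t) : x = y := AlgHom.ext h

instance instMulActionEmb : MulAction (Ω ≃ₐ[B] Ω) (Emb B B' Ω) where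
  one_smul x := Emb.ext fun _ => rfl
  mul_smul g h x := Emb.ext fun _ => rfl

/-- The values of an embedding on units. -/
def Emb.un (x : Emb B B' Ω) (t : B'ˣ) : Ωˣ :=
  Units.map ((show B' →ₐ[B] Ω from x) : B' →* Ω) t

theorem Emb.un_mem (t : B'ˣ) : (fun x : Emb B B' Ω => x.un t) ∈ Eqv B Ω (Emb B B' Ω) := by
  intro g x
  ext
  rfl

noncomputable instance instFintypeEmb [FiniteDimensional B B'] : Fintype (Emb B B' Ω) := by
  exact (inferInstance : Fintype (B' →ₐ[B] Ω))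

instance instCtsSetEmb [FiniteDimensional B B'] : CtsSet B Ω (Emb B B' Ω) := by
  classical
  let b := Module.finBasis B B'
  refine ⟨⟨(univ : Finset (Emb B B' Ω × Fin (finrank B B'))).image fun p => p.1.ap (b p.2),
    fun g hg x => ?_⟩⟩
  have h1 : ∀ i, g (x.ap (b i)) = x.ap (b i) := fun i =>
    hg _ (mem_image.2 ⟨(x, i), mem_univ _, rfl⟩)
  have h2 : ((g : Ω →ₐ[B] Ω).comp (show B' →ₐ[B] Ω from x)).toLinearMap =
      (show B' →ₐ[B] Ω from x).toLinearMap := b.ext h1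
  exact AlgHom.toLinearMap_injective h2

theorem card_emb [PerfectField B] [IsAlgClosed Ω] [FiniteDimensional B B'] :
    Fintype.card (Emb B B' Ω) = finrank B B' := by
  have h := AlgHom.card B B' Ω
  rw [← h]
  exact Fintype.card_congr (Equiv.refl _)

variable [Algebra B' Ω] [IsScalarTower B B' Ω]

variable (B B' Ω) in
/-- The given embedding. -/
def base : Emb B B' Ω := IsScalarTower.toAlgHom B B' Ω

theorem base_ap (t : B') : (base B B' Ω).ap t = algebraMap B' Ω t := rfl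

theorem exists_r [IsAlgClosed Ω] [Algebra.IsAlgebraic B Ω] (x : Emb B B' Ω) :
    ∃ r : Ω ≃ₐ[B] Ω, r • base B B' Ω = x := by
  have : IsAlgClosure B Ω := ⟨inferInstance, inferInstance⟩
  have : Normal B Ω := IsAlgClosure.normal B Ω
  let φ : Ω →ₐ[B] Ω := (show B' →ₐ[B] Ω from x).liftNormal Ω
  have hφ : ∀ t : B', φ (algebraMap B' Ω t) = x.ap t := fun t =>
    (show B' →ₐ[B] Ω from x).liftNormal_commutes Ω t
  exact ⟨AlgEquiv.ofBijective φ (Algebra.IsAlgebraic.algHom_bijective φ),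
    Emb.ext fun t => hφ t⟩

section

variable [IsAlgClosed Ω] [Algebra.IsAlgebraic B Ω]

/-- A representative. -/
noncomputable def r (x : Emb B B' Ω) : Ω ≃ₐ[B] Ω := (exists_r x).choose

theorem r_smul (x : Emb B B' Ω) : r x • base B B' Ω = x := (exists_r x).choose_spec

theorem r_inv_smul (x : Emb B B' Ω) : (r x)⁻¹ • x = base B B' Ω := by
  rw [inv_smul_eq_iff, r_smul]

instance instPretransEmb : MulAction.IsPretransitive (Ω ≃ₐ[B] Ω) (Emb B B' Ω) :=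
  ⟨fun x y => ⟨r y * (r x)⁻¹, by rw [mul_smul, r_inv_smul, r_smul]⟩⟩

theorem fix_base (g : Ω ≃ₐ[B] Ω) (x : Emb B B' Ω) (t : B') :
    ((r x)⁻¹ * g * r (g⁻¹ • x)) (algebraMap B' Ω t) = algebraMap B' Ω t := by
  have h1 : ((r x)⁻¹ * g * r (g⁻¹ • x)) • base B B' Ω = base B B' Ω := by
    rw [mul_smul, r_smul, mul_smul, smul_inv_smul, r_inv_smul]
  have h2 := congrArg (fun y : Emb B B' Ω => y.ap t) h1
  simpa only [Emb.ap_smul, base_ap] using h2

/-- The element `(r x)⁻¹ g r(g⁻¹ x)` as an automorphism over `B'`. -/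
noncomputable def hh (g : Ω ≃ₐ[B] Ω) (x : Emb B B' Ω) : Ω ≃ₐ[B'] Ω :=
  AlgEquiv.ofRingEquiv (f := ((r x)⁻¹ * g * r (g⁻¹ • x) : Ω ≃ₐ[B] Ω).toRingEquiv)
    (fun t => fix_base g x t)

theorem hh_apply (g : Ω ≃ₐ[B] Ω) (x : Emb B B' Ω) (t : Ω) :
    hh g x t = (r x)⁻¹ (g (r (g⁻¹ • x) t)) := rfl

/-- `r x (hh g x t) = g (r (g⁻¹ x) t)`. -/
theorem r_hh (g : Ω ≃ₐ[B] Ω) (x : Emb B B' Ω) (t : Ω) :
    r x (hh g x t) = g (r (g⁻¹ • x) t) := by
  rw [hh_apply, ← AlgEquiv.mul_apply, mul_inv_cancel, AlgEquiv.one_apply]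

theorem hh_mul (g g' : Ω ≃ₐ[B] Ω) (x : Emb B B' Ω) :
    hh (g * g') x = hh g x * hh g' (g⁻¹ • x) := by
  ext t
  rw [AlgEquiv.mul_apply, hh_apply, hh_apply, r_hh, mul_inv_rev, mul_smul, AlgEquiv.mul_apply]

theorem cts_hh [FiniteDimensional B B'] {Y : Type*} {f : (Ω ≃ₐ[B'] Ω) → Y} (hf : Cts f) :
    Cts (fun (g : Ω ≃ₐ[B] Ω) (x : Emb B B' Ω) => f (hh g x)) := by
  classical
  obtain ⟨T, hT⟩ := hf
  obtain ⟨T1, hT1⟩ := CtsSet.inv_smul_cts (B := B) (Ω := Ω) (X := Emb B B' Ω)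
  refine ⟨T1 ∪ ((univ : Finset (Emb B B' Ω)) ×ˢ T).image fun p => r p.1 p.2,
    fun g g' hg => ?_⟩
  funext x
  apply hT
  intro t ht
  have h1 : g⁻¹ • x = g'⁻¹ • x := hT1 g g' (fun t ht => hg t (mem_union_left _ ht)) x
  rw [hh_apply, hh_apply, ← h1]
  congr 1
  exact hg _ (mem_union_right _ (mem_image.2 ⟨(g⁻¹ • x, t), mem_product.2 ⟨mem_univ _, ht⟩, rfl⟩))

variable (B B' Ω) in
/-- The corestriction of cochains. -/
noncomputable def corC [FiniteDimensional B B'] :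
    ((Ω ≃ₐ[B'] Ω) → (Ω ≃ₐ[B'] Ω) → Ωˣ) →* ((Ω ≃ₐ[B] Ω) → (Ω ≃ₐ[B] Ω) → Ωˣ) where
  toFun c g g' := ∏ x : Emb B B' Ω, act (r x) (c (hh g x) (hh g' (g⁻¹ • x)))
  map_one' := by
    funext g g'
    simp
  map_mul' c c' := by
    funext g g'
    simp [Finset.prod_mul_distrib]

theorem corC_bd [FiniteDimensional B B'] {β : (Ω ≃ₐ[B'] Ω) → Ωˣ} (hβ : Cts β) :
    corC B B' Ω (bd β) ∈ Cob B Ω := by
  refine ⟨fun g => ∏ x : Emb B B' Ω, act (r x) (β (hh g x)),
    (cts_hh (B := B) (B' := B') hβ).comp fun f => ∏ x : Emb B B' Ω, act (r x) (f x), ?_⟩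
  funext g g'
  change ∏ x : Emb B B' Ω, act (r x) (β (hh g x) * act (hh g x) (β (hh g' (g⁻¹ • x))) *
      (β (hh g x * hh g' (g⁻¹ • x)))⁻¹) =
    (∏ x : Emb B B' Ω, act (r x) (β (hh g x))) *
      act g (∏ x : Emb B B' Ω, act (r x) (β (hh g' x))) *
        (∏ x : Emb B B' Ω, act (r x) (β (hh (g * g') x)))⁻¹
  have h1 : act g (∏ x : Emb B B' Ω, act (r x) (β (hh g' x))) =
      ∏ x : Emb B B' Ω, act (r x) (act (hh g x) (β (hh g' (g⁻¹ • x)))) := by
    rw [map_prod, ← Equiv.prod_comp (MulAction.toPerm (g⁻¹) : Equiv.Perm (Emb B B' Ω))]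
    refine Finset.prod_congr rfl fun x _ => ?_
    rw [MulAction.toPerm_apply]
    ext
    rw [coe_act, coe_act, coe_act, coe_act, r_hh]
  rw [h1, ← Finset.prod_inv_distrib, ← Finset.prod_mul_distrib, ← Finset.prod_mul_distrib]
  refine Finset.prod_congr rfl fun x _ => ?_
  rw [map_mul, map_mul, map_inv, hh_mul]

variable (B B' Ω) in
/-- The corestriction of classes. -/
noncomputable def cor [FiniteDimensional B B'] : V B' Ω →* V B Ω :=
  QuotientGroup.map (Cob B' Ω) (Cob B Ω) (corC B B' Ω) (by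
    rintro c ⟨β, hβ, rfl⟩
    exact corC_bd hβ)

theorem cor_cl [FiniteDimensional B B'] (c : (Ω ≃ₐ[B'] Ω) → (Ω ≃ₐ[B'] Ω) → Ωˣ) :
    cor B B' Ω (cl c) = cl (corC B B' Ω c) := rfl

end

end Pool.Agent.LibCocU
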