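import Pool.Agent.LibCocU.Cor

/-!
[COCU U4] cor [A_B'] = [A_B]^|Emb|. By isCls_unique and isCls_res we may take for w the class of A' g = A (g.restrictScalars B),
δ' g h = δ (g.restrictScalars B) (h.restrictScalars B). For g ∈ G, x ∈ Emb, y = g⁻¹ x, h = hh g x (as element of G:
(r x)⁻¹ g r y): A g * (A (r y)).map g = λ g x • (A (r x) * (A h).map (r x)) with λ g x = δ g (r y) / δ (r x) h
(both sides are multiples of A (g r y) = A (r x h)). With h' = hh g' y, w = g'⁻¹ y, compute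
A g * (A g' * (A (r w)).map g').map g in two ways:
δ g g' * λ (g g') x = λ g x * g(λ g' y) * (r x)(δ h h').
So δ^|Emb| = corC δ' * bd (g ↦ ∏_x λ g x)^(±1); continuity of λ: λ g x is determined by A g, (A (r y)).map g, A h.
-/

set_option autoImplicit false

open Finset Module Pool.Agent.LibCoc63

namespace Pool.Agent.LibCocU

section coc

variable {F B Ω : Type*} [Field F] [Field B] [Field Ω] [Algebra F B] [Algebra B Ω] [Algebra F Ω]
  [IsScalarTower F B Ω]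
variable {D : Type*} [Ring D] [Algebra F D] {n : Type*} [Fintype n] [DecidableEq n]

theorem isCo_inj [Nonempty n] (U : (Matrix n n Ω)ˣ) {a b : Ω}
    (h : a • (U : Matrix n n Ω) = b • (U : Matrix n n Ω)) : a = b := by
  have h1 := sub_eq_zero.2 h
  rw [← sub_smul, smul_eq_zero] at h1
  rcases h1 with h1 | h1
  · exact sub_eq_zero.1 h1
  · exact absurd h1 U.ne_zero

theorem isCo_cocycle [Nonempty n] {ρ : D →ₐ[F] Matrix n n Ω} {A : (Ω ≃ₐ[B] Ω) → (Matrix n n Ω)ˣ}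
    {δ : (Ω ≃ₐ[B] Ω) → (Ω ≃ₐ[B] Ω) → Ωˣ} (h : IsCo B ρ A δ) (g h' k : Ω ≃ₐ[B] Ω) :
    δ g h' * δ (g * h') k = act g (δ h' k) * δ g (h' * k) := by
  obtain ⟨_, _, h3⟩ := h
  have c1 : (A g : Matrix n n Ω) * (A h' : Matrix n n Ω).map g * (A k : Matrix n n Ω).map (g * h') =
      ((δ g h' : Ω) * (δ (g * h') k : Ω)) • (A (g * h' * k) : Matrix n n Ω) := by
    rw [h3, smul_mul_assoc, h3, smul_smul]
  have c2 : (A g : Matrix n n Ω) * (A h' : Matrix n n Ω).map g * (A k : Matrix n n Ω).map (g * h') =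
      (g (δ h' k : Ω) * (δ g (h' * k) : Ω)) • (A (g * h' * k) : Matrix n n Ω) := by
    rw [mul_assoc, ← map_map_mul, ← map_mul_alg, h3, map_smul_alg, mul_smul_comm, h3, smul_smul, mul_assoc g]
  rw [c1] at c2
  ext
  simpa using isCo_inj _ c2

end coc

variable {B B' Ω : Type*} [Field B] [Field B'] [Field Ω] [Algebra B B'] [Algebra B Ω]
  [Algebra B' Ω] [IsScalarTower B B' Ω] [IsAlgClosed Ω] [Algebra.IsAlgebraic B Ω]
  [FiniteDimensional B B']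
variable {F : Type*} [Field F] [Algebra F B] [Algebra F B'] [Algebra F Ω] [IsScalarTower F B Ω]
  [IsScalarTower F B' Ω]
variable {D : Type*} [Ring D] [Algebra F D] {n : Type*} [Fintype n] [DecidableEq n]

omit [FiniteDimensional B B'] in
theorem r_mul_hh (g : Ω ≃ₐ[B] Ω) (x : Emb B B' Ω) :
    r x * (hh g x).restrictScalars B = g * r (g⁻¹ • x) := by
  ext t
  exact r_hh g x t

/-- The scalars comparing the two cocycles. -/
noncomputable def lamA (δ : (Ω ≃ₐ[B] Ω) → (Ω ≃ₐ[B] Ω) → Ωˣ) (g : Ω ≃ₐ[B] Ω) (x : Emb B B' Ω) : Ωˣ :=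
  δ g (r (g⁻¹ • x)) * (δ (r x) ((hh g x).restrictScalars B))⁻¹

omit [FiniteDimensional B B'] [Algebra F B'] [IsScalarTower F B' Ω] in
theorem lamA_spec {ρ : D →ₐ[F] Matrix n n Ω} {A : (Ω ≃ₐ[B] Ω) → (Matrix n n Ω)ˣ}
    {δ : (Ω ≃ₐ[B] Ω) → (Ω ≃ₐ[B] Ω) → Ωˣ} (h : IsCo B ρ A δ) (g : Ω ≃ₐ[B] Ω) (x : Emb B B' Ω) :
    (A g : Matrix n n Ω) * (A (r (g⁻¹ • x)) : Matrix n n Ω).map g =
      (lamA δ g x : Ω) • ((A (r x) : Matrix n n Ω) *
        (A ((hh g x).restrictScalars B) : Matrix n n Ω).map (r x)) := by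
  obtain ⟨_, _, h3⟩ := h
  rw [h3, h3, smul_smul, r_mul_hh, lamA, Units.val_mul, mul_assoc, ← Units.val_mul, inv_mul_cancel,
    Units.val_one, mul_one]

omit [Algebra F B'] [IsScalarTower F B' Ω] in
theorem cts_lamA [Nonempty n] {ρ : D →ₐ[F] Matrix n n Ω} {A : (Ω ≃ₐ[B] Ω) → (Matrix n n Ω)ˣ}
    {δ : (Ω ≃ₐ[B] Ω) → (Ω ≃ₐ[B] Ω) → Ωˣ} (h : IsCo B ρ A δ) :
    Cts (fun (g : Ω ≃ₐ[B] Ω) => ∏ x : Emb B B' Ω, lamA δ g x) := by
  suffices hs : Cts (fun (g : Ω ≃ₐ[B] Ω) (x : Emb B B' Ω) => lamA δ g x) from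
    hs.comp (fun f => ∏ x : Emb B B' Ω, f x)
  have h1 : Cts (fun g : Ω ≃ₐ[B] Ω => fun y : Emb B B' Ω => fun i : n => fun j : n =>
      g ((A (r y) : Matrix n n Ω) i j)) :=
    Cts.pi fun y => Cts.pi fun i => Cts.pi fun j => Cts.eval _
  have h2 : Cts (fun (g : Ω ≃ₐ[B] Ω) (x : Emb B B' Ω) => A ((hh g x).restrictScalars B)) :=
    cts_hh (cts_restrict (B' := B') h.1)
  have h3 : Cts (fun (g : Ω ≃ₐ[B] Ω) (x : Emb B B' Ω) => g⁻¹ • x) := by
    obtain ⟨T, hT⟩ := CtsSet.inv_smul_cts (B := B) (Ω := Ω) (X := Emb B B' Ω)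
    exact ⟨T, fun g g' hg => funext fun x => hT g g' hg x⟩
  obtain ⟨T, hT⟩ := (h1.prodMk h2).prodMk (h3.prodMk h.1)
  refine ⟨T, fun g g' hg => ?_⟩
  have h4 := hT g g' hg
  simp only [Prod.mk.injEq] at h4
  obtain ⟨⟨h5, h6⟩, h7, h8⟩ := h4
  funext x
  have e1 := lamA_spec h g x
  have e2 := lamA_spec h g' x
  have e3 : (A (r (g⁻¹ • x)) : Matrix n n Ω).map g = (A (r (g'⁻¹ • x)) : Matrix n n Ω).map g' := by
    have e4 : g⁻¹ • x = g'⁻¹ • x := congrFun h7 x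
    rw [e4]
    ext i j
    exact congrFun (congrFun (congrFun h5 (g'⁻¹ • x)) i) j
  have e5 : A ((hh g x).restrictScalars B) = A ((hh g' x).restrictScalars B) := congrFun h6 x
  rw [← e3, ← e5, ← h8, e1] at e2
  rw [h.2.2] at e2
  rw [smul_smul, smul_smul] at e2
  have e6 := isCo_inj _ e2
  have e7 := mul_right_cancel₀ (Units.ne_zero _) e6
  exact Units.ext e7

omit [Algebra F B'] [IsScalarTower F B' Ω] [FiniteDimensional B B'] in
theorem lamA_mul [Nonempty n] {ρ : D →ₐ[F] Matrix n n Ω} {A : (Ω ≃ₐ[B] Ω) → (Matrix n n Ω)ˣ}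
    {δ : (Ω ≃ₐ[B] Ω) → (Ω ≃ₐ[B] Ω) → Ωˣ} (h : IsCo B ρ A δ) (g g' : Ω ≃ₐ[B] Ω) (x : Emb B B' Ω) :
    δ g g' * lamA δ (g * g') x = lamA δ g x * act g (lamA δ g' (g⁻¹ • x)) *
      act (r x) (δ ((hh g x).restrictScalars B) ((hh g' (g⁻¹ • x)).restrictScalars B)) := by
  have hw : (g * g')⁻¹ • x = g'⁻¹ • (g⁻¹ • x) := by rw [mul_inv_rev, mul_smul]
  have hm : (hh (g * g') x).restrictScalars B =
      (hh g x).restrictScalars B * (hh g' (g⁻¹ • x)).restrictScalars B := by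
    rw [hh_mul]
    ext t
    rfl
  have a1 := isCo_cocycle h g g' (r (g'⁻¹ • (g⁻¹ • x)))
  have a2 := isCo_cocycle h g (r (g⁻¹ • x)) ((hh g' (g⁻¹ • x)).restrictScalars B)
  have a3 := isCo_cocycle h (r x) ((hh g x).restrictScalars B) ((hh g' (g⁻¹ • x)).restrictScalars B)
  rw [r_mul_hh] at a3
  rw [r_mul_hh] at a2
  simp only [lamA, hw, hm, map_mul, map_inv]
  -- abbreviations
  generalize (hh g x).restrictScalars B = H at *
  generalize (hh g' (g⁻¹ • x)).restrictScalars B = H' at *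
  generalize g'⁻¹ • (g⁻¹ • x) = w at *
  generalize g⁻¹ • x = y at *
  have b1 : δ g g' * (δ (g * g') (r w) * (δ (r x) (H * H'))⁻¹) =
      act g (δ g' (r w)) * δ g (g' * r w) * (δ (r x) (H * H'))⁻¹ := by
    rw [← mul_assoc, a1]
  rw [b1]
  have b2 : δ g (g' * r w) = δ g (r y) * δ (g * r y) H' * (act g (δ (r y) H'))⁻¹ := by
    rw [a2, mul_comm (act g _), mul_inv_cancel_right]
  have b3 : δ (g * r y) H' = act (r x) (δ H H') * δ (r x) (H * H') * (δ (r x) H)⁻¹ := by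
    rw [← a3, mul_comm (δ (r x) H), mul_inv_cancel_right]
  rw [b2, b3]
  have b4 : δ (r x) (H * H') * (δ (r x) (H * H'))⁻¹ = 1 := mul_inv_cancel _
  calc act g (δ g' (r w)) * (δ g (r y) * (act (r x) (δ H H') * δ (r x) (H * H') * (δ (r x) H)⁻¹) *
        (act g (δ (r y) H'))⁻¹) * (δ (r x) (H * H'))⁻¹
      = (δ g (r y) * (δ (r x) H)⁻¹ * (act g (δ g' (r w)) * (act g (δ (r y) H'))⁻¹) *
          act (r x) (δ H H')) * (δ (r x) (H * H') * (δ (r x) (H * H'))⁻¹) := by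
        simp only [mul_assoc, mul_comm, mul_left_comm]
    _ = _ := by rw [b4, mul_one]

theorem cor_cls [Nonempty n] {ρ : D →ₐ[F] Matrix n n Ω} (hρ : IsRep ρ) {v : V B Ω} {w : V B' Ω}
    (hv : IsCls B ρ v) (hw : IsCls B' ρ w) :
    cor B B' Ω w = v ^ Fintype.card (Emb B B' Ω) := by
  have e1 : w = res B B' Ω v :=
    isCls_unique hρ (AlgEquiv.refl : D ≃ₐ[F] D) hρ hw (isCls_res hv)
  obtain ⟨A, δ, h, rfl⟩ := hv
  rw [e1, res_cl, cor_cl, ← cl_pow]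
  symm
  refine cl_eq (cts_lamA (B' := B') h) fun g g' => ?_
  rw [bd, ← mul_assoc, eq_mul_inv_iff_mul_eq]
  have h1 : (δ ^ Fintype.card (Emb B B' Ω)) g g' * ∏ x : Emb B B' Ω, lamA δ (g * g') x =
      ∏ x : Emb B B' Ω, (δ g g' * lamA δ (g * g') x) := by
    rw [prod_mul_distrib, prod_const, card_univ]
    rfl
  rw [h1, prod_congr rfl fun x _ => lamA_mul h g g' x, prod_mul_distrib, prod_mul_distrib, ← map_prod]
  have h2 : ∏ x : Emb B B' Ω, lamA δ g' (g⁻¹ • x) = ∏ x : Emb B B' Ω, lamA δ g' x :=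
    Equiv.prod_comp (MulAction.toPerm g⁻¹ : Equiv.Perm (Emb B B' Ω)) (fun x => lamA δ g' x)
  rw [h2, mul_comm]
  rfl

end Pool.Agent.LibCocU
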