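import Pool.Agent.LibCocU.Cor
import Pool.Agent.LibCoc63.RT

/-!
[COCU U3] Corestriction of a symbol of constants. Take (ξ, χ, k) for (a, b) over B' (X = Unit). Over Emb take
ξ' x = act (r x) ξ, χ' g x = χ (hh g x), k' g g' x = k (hh g x) (hh g' (g⁻¹ x)); a' x = x.un a = act (r x) (image of a),
b' x = x.un b; act g (ξ' (g⁻¹ x)) = act (r x) (act (hh g x) ξ) (r_hh). So corC c computes (a', b') (`Comp`), `S_eq`.
cor_mem_W: rosset_tate on generators (Subgroup.closure_induction, or `Subgroup.map_le`/closure_le and comap).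
-/

set_option autoImplicit false

open Finset Module Pool.Agent.LibCoc63

namespace Pool.Agent.LibCocU

variable {B B' Ω : Type*} [Field B] [Field B'] [Field Ω] [Algebra B B'] [Algebra B Ω]
  [Algebra B' Ω] [IsScalarTower B B' Ω] [IsAlgClosed Ω] [Algebra.IsAlgebraic B Ω]
  [FiniteDimensional B B']

theorem cor_S {m : ℕ} (z : PR B Ω m) (a b : B'ˣ) :
    cor B B' Ω (S (resPR B' z) (cst Ω Unit a) (cst Ω Unit b)) =
      S z (fun x : Emb B B' Ω => x.un a) (fun x : Emb B B' Ω => x.un b) := by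
  -- values of embeddings
  have hun : ∀ (x : Emb B B' Ω) (t : B'ˣ), x.un t = act (r x) (cst Ω Unit t ()) := by
    intro x t
    ext
    have h1 := congrArg (fun y : Emb B B' Ω => y.ap (t : B')) (r_smul x)
    exact h1.symm
  obtain ⟨c, hc⟩ := comp_exists (X := Unit) (resPR B' z) (cst_mem Unit a) (cst Ω Unit b)
  rw [S_eq (X := Unit) (resPR B' z) (cst_mem Unit b) hc, cor_cl]
  symm
  refine S_eq z (Emb.un_mem b) ?_
  obtain ⟨ξ, χ, k, hχ, h1, h2, h3, h4⟩ := hc
  refine ⟨fun x => act (r x) (ξ ()), fun g x => χ (hh g x) (),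
    fun g g' x => k (hh g x) (hh g' (g⁻¹ • x)) (), ?_, ?_, ?_, ?_, ?_⟩
  · exact cts_hh (B := B) (B' := B') (hχ.comp fun f => f ())
  · intro x
    rw [← map_pow, h1]
    exact (hun x a).symm
  · intro g x
    have e1 : act g (act (r (g⁻¹ • x)) (ξ ())) = act (r x) (act (hh g x) (ξ ())) := by
      ext
      rw [coe_act, coe_act, coe_act, coe_act, r_hh]
    have e2 : act (hh g x) (ξ ()) = z.ζ ^ χ (hh g x) () * ξ () := h2 (hh g x) ()
    have e3 : act (r x) (z.ζ ^ χ (hh g x) ()) = z.ζ ^ χ (hh g x) () := by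
      rw [map_zpow, z.fix]
    change act g (act (r (g⁻¹ • x)) (ξ ())) = _
    rw [e1, e2, map_mul, e3]
  · intro g h x
    have e1 := h3 (hh g x) (hh h (g⁻¹ • x)) ()
    rw [← hh_mul] at e1
    exact e1
  · intro g h
    change ∏ x : Emb B B' Ω, act (r x) (c (hh g x) (hh h (g⁻¹ • x))) = _
    refine Finset.prod_congr rfl fun x _ => ?_
    rw [h4, Fintype.prod_unique, map_zpow]
    exact congrArg (· ^ k (hh g x) (hh h (g⁻¹ • x)) ()) (hun x b).symm

theorem cor_mem_W [PerfectField B] {m : ℕ} (z : PR B Ω m) {v : V B' Ω}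
    (hv : v ∈ W (resPR B' z)) : cor B B' Ω v ∈ W z := by
  have h1 : W (resPR B' z) ≤ (W z).comap (cor B B' Ω) := by
    unfold W
    rw [Subgroup.closure_le]
    rintro v ⟨u, w, rfl⟩
    have : Nonempty (Emb B B' Ω) := ⟨base B B' Ω⟩
    change cor B B' Ω (S (resPR B' z) (cst Ω Unit u) (cst Ω Unit w)) ∈ W z
    rw [cor_S]
    exact rosset_tate z (Emb.un_mem u) (Emb.un_mem w)
  exact h1 hv

end Pool.Agent.LibCocU
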