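import Pool.Agent.LibCoc63.Fin

/-!
[COCU U8] As COC A7 (see Fin.lean, copy from it), for the field E(all roots of unity), E = F(z0).
Every finite subset of it lies in F(ξ) for one root of unity ξ of order prime to p.
-/

set_option autoImplicit false

open Finset Module Pool.Agent.LibK2Tower Pool.Agent.LibCoc63
open scoped TensorProduct

namespace Pool.Agent.LibCocU

section level

variable {F E Ω : Type} [Field F] [Field E] [Field Ω] [Algebra F E] [Algebra E Ω] [Algebra F Ω]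
  [IsScalarTower F E Ω]

/-- A generator of the group of the roots of unity of order `k`. -/
private lemma u8_gen (Ω : Type) [Field Ω] (k : ℕ) (hk : k ≠ 0) : ∃ g : Ω, g ^ k = 1 ∧
    ∀ ξ : Ω, ξ ^ k = 1 → ∃ i : ℕ, g ^ i = ξ := by
  have : NeZero k := ⟨hk⟩
  obtain ⟨g, hg⟩ := IsCyclic.exists_generator (α := rootsOfUnity k Ω)
  refine ⟨((g : Ωˣ) : Ω), ?_, fun ξ hξ => ?_⟩
  · have := g.2
    rw [mem_rootsOfUnity'] at this
    exact this
  · obtain ⟨i, hi⟩ := mem_powers_iff_mem_zpowers.2 (hg (rootsOfUnity.mkOfPowEq ξ hξ))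
    refine ⟨i, ?_⟩
    have h1 : g ^ i = rootsOfUnity.mkOfPowEq ξ hξ := hi
    have h2 := congrArg (fun x : rootsOfUnity k Ω => ((x : Ωˣ) : Ω)) h1
    simpa using h2

variable (F) in
/-- The order of a root of unity can be taken prime to the characteristic. -/
private lemma u8_red (p : ℕ) [Fact p.Prime] [CharP F p] {ξ : Ω} {k : ℕ} (hk : k ≠ 0)
    (hξ : ξ ^ k = 1) : ∃ k' : ℕ, k' ≠ 0 ∧ (k' : F) ≠ 0 ∧ ξ ^ k' = 1 := by
  have hp : p.Prime := Fact.out
  have : CharP Ω p := charP_of_injective_algebraMap (algebraMap F Ω).injective p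
  have : ExpChar Ω p := ExpChar.prime hp
  obtain ⟨a, k', hk', rfl⟩ := Nat.exists_eq_pow_mul_and_not_dvd hk p hp.ne_one
  refine ⟨k', fun h => hk' (h ▸ dvd_zero p), fun h => hk' ((CharP.cast_eq_zero_iff F p k').1 h), ?_⟩
  rwa [ExpChar.pow_prime_pow_mul_eq_one_iff] at hξ

variable (F) in
/-- Levels. -/
private lemma u8_level (p : ℕ) [Fact p.Prime] [CharP F p] {z0 : E} {N : ℕ} (hN : N ≠ 0)
    (hz0 : z0 ^ N = 1) (hE : IntermediateField.adjoin F {z0} = ⊤) {g : ℕ → Ω}
    (hg : ∀ k, k ≠ 0 → g k ^ k = 1 ∧ ∀ ξ : Ω, ξ ^ k = 1 → ∃ i : ℕ, g k ^ i = ξ) {x : Ω}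
    (hx : x ∈ IntermediateField.adjoin E {ξ : Ω | ∃ k : ℕ, k ≠ 0 ∧ ξ ^ k = 1}) :
    ∃ M : ℕ, M ≠ 0 ∧ (M : F) ≠ 0 ∧
      ∀ M', M ∣ M' → M' ≠ 0 → x ∈ IntermediateField.adjoin F {g M'} := by
  classical
  obtain ⟨T, hT, hxT⟩ := IntermediateField.exists_finset_of_mem_adjoin hx
  have h1 : ∀ t ∈ T, ∃ k : ℕ, k ≠ 0 ∧ (k : F) ≠ 0 ∧ t ^ k = 1 := by
    intro t ht
    obtain ⟨k, hk, hk'⟩ := hT ht
    exact u8_red F p hk hk'
  choose! κ hκ using h1
  have hz : (algebraMap E Ω z0) ^ N = 1 := by rw [← map_pow, hz0, map_one]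
  obtain ⟨N', hN', hN'F, hz'⟩ := u8_red F p hN hz
  refine ⟨N' * ∏ t ∈ T, κ t, mul_ne_zero hN' (Finset.prod_ne_zero_iff.2 fun t ht => (hκ t ht).1),
    ?_, ?_⟩
  · rw [Nat.cast_mul, Nat.cast_prod]
    exact mul_ne_zero hN'F (Finset.prod_ne_zero_iff.2 fun t ht => (hκ t ht).2.1)
  intro M' hM' hM0
  have hroot : ∀ ξ : Ω, ∀ k, ξ ^ k = 1 → k ∣ M' → ξ ∈ IntermediateField.adjoin F {g M'} := by
    intro ξ k hξ hk
    have h4 : ξ ^ M' = 1 := by
      obtain ⟨c, rfl⟩ := hk
      rw [pow_mul, hξ, one_pow]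
    obtain ⟨i, hi⟩ := (hg M' hM0).2 ξ h4
    rw [← hi]
    exact pow_mem (IntermediateField.mem_adjoin_simple_self F (g M')) i
  have hEK : ∀ e : E, algebraMap E Ω e ∈ (IntermediateField.adjoin F {g M'}).toSubfield := by
    intro e
    have h2 : e ∈ IntermediateField.adjoin F {z0} := by rw [hE]; trivial
    have h3 : algebraMap E Ω e ∈
        (IntermediateField.adjoin F {z0}).map (IsScalarTower.toAlgHom F E Ω) := ⟨e, h2, rfl⟩
    rw [IntermediateField.adjoin_map, Set.image_singleton] at h3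
    have h4 : IntermediateField.adjoin F {IsScalarTower.toAlgHom F E Ω z0} ≤
        IntermediateField.adjoin F {g M'} := by
      rw [IntermediateField.adjoin_simple_le_iff]
      exact hroot _ N' hz' (dvd_trans (dvd_mul_right _ _) hM')
    exact h4 h3
  have h5 : IntermediateField.adjoin E (T : Set Ω) ≤
      (IntermediateField.adjoin F {g M'}).toSubfield.toIntermediateField hEK := by
    rw [IntermediateField.adjoin_le_iff]
    intro t ht
    exact hroot t (κ t) (hκ t ht).2.2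
      (dvd_trans (dvd_trans (Finset.dvd_prod_of_mem κ ht) (dvd_mul_left _ _)) hM')
  exact h5 hxT

variable (F) in
private lemma u8_le {x : Ω} {k : ℕ} (hk : k ≠ 0) (hx : x ^ k = 1) :
    ∀ y ∈ IntermediateField.adjoin F {x},
      y ∈ IntermediateField.adjoin E {ξ : Ω | ∃ k : ℕ, k ≠ 0 ∧ ξ ^ k = 1} := by
  have h1 : IntermediateField.adjoin F {x} ≤
      (IntermediateField.adjoin E {ξ : Ω | ∃ k : ℕ, k ≠ 0 ∧ ξ ^ k = 1}).restrictScalars F := by
    rw [IntermediateField.adjoin_simple_le_iff]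
    exact IntermediateField.subset_adjoin E _ ⟨k, hk, hx⟩
  exact fun y hy => h1 hy

/-- The inclusion. -/
private def u8_incl {K : IntermediateField F Ω} {B : IntermediateField E Ω}
    (h : ∀ y ∈ K, y ∈ B) : K →ₐ[F] B where
  toFun a := ⟨a, h a a.2⟩
  map_one' := rfl
  map_mul' _ _ := rfl
  map_zero' := rfl
  map_add' _ _ := rfl
  commutes' a := Subtype.ext (by
    show algebraMap F Ω a = ((algebraMap F B a : B) : Ω)
    rw [IsScalarTower.algebraMap_apply F E Ω, IsScalarTower.algebraMap_apply F E B]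
    rfl)

private lemma u8_top (x : Ω) : IntermediateField.adjoin F
    {(⟨x, IntermediateField.mem_adjoin_simple_self F x⟩ : IntermediateField.adjoin F {x})} = ⊤ := by
  apply IntermediateField.lift_injective
  rw [IntermediateField.lift_adjoin_simple, IntermediateField.lift_top]

end level

/-- The image of `K_2` under a homomorphism over `F`. -/
private lemma u8_map_base {F E K : Type*} [Field F] [Field E] [Field K] [Algebra F E] [Algebra F K]
    [Algebra E K] [IsScalarTower F E K] {x : K2 E} (hx : x ∈ baseSymbols F E) :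
    Pool.Agent.LibBrS.k2res E K x ∈ baseSymbols F K := by
  have h : baseSymbols F E ≤ (baseSymbols F K).comap (Pool.Agent.LibBrS.k2res E K) := by
    refine (AddSubgroup.closure_le _).2 ?_
    rintro _ ⟨f, e, rfl⟩
    show Pool.Agent.LibBrS.k2res E K _ ∈ baseSymbols F K
    rw [Pool.Agent.LibBrS.k2res_symb]
    refine AddSubgroup.subset_closure ⟨f, Units.map (algebraMap E K).toMonoidHom e, ?_⟩
    congr 1
    ext
    exact (IsScalarTower.algebraMap_apply F E K f).symm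
  exact h hx

private lemma u8_infinite {F : Type} [Field F] (h : HQ F) (p : ℕ) [Fact p.Prime] [CharP F p]
    {E Ω : Type} [Field E] [Algebra F E] [Field Ω] [Algebra E Ω] [Algebra F Ω]
    [IsScalarTower F E Ω] {z0 : E} {N : ℕ} (hN : N ≠ 0) (hz0 : z0 ^ N = 1)
    (hE : IntermediateField.adjoin F {z0} = ⊤) {B : IntermediateField E Ω}
    (hB : B = IntermediateField.adjoin E {ξ : Ω | ∃ k : ℕ, k ≠ 0 ∧ ξ ^ k = 1}) (x : K2 B) :
    ∃ j : ℕ, j ≠ 0 ∧ j • x ∈ baseSymbols F B := by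
  choose! g hg using u8_gen Ω
  have hle : ∀ m, m ≠ 0 → ∀ y ∈ IntermediateField.adjoin F {g m}, y ∈ B := fun m hm => by
    rw [hB]
    exact u8_le F hm (hg m hm).1
  have key : ∃ M : ℕ, M ≠ 0 ∧ (M : F) ≠ 0 ∧ ∀ m, M ∣ m → ∀ hm : m ≠ 0,
      letI : Algebra (IntermediateField.adjoin F {g m}) B :=
        (u8_incl (hle m hm)).toRingHom.toAlgebra
      ∃ y : K2 (IntermediateField.adjoin F {g m}),
        Pool.Agent.LibBrS.k2res (IntermediateField.adjoin F {g m}) B y = x := by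
    induction x using K2.induction with
    | h0 => exact ⟨1, one_ne_zero, by simp, fun m _ hm => ⟨0, map_zero _⟩⟩
    | hs u v =>
      obtain ⟨k, hk0, hkF, hk⟩ := u8_level F p hN hz0 hE hg (hB.le (u : B).2)
      obtain ⟨k', hk0', hkF', hk'⟩ := u8_level F p hN hz0 hE hg (hB.le (v : B).2)
      refine ⟨k * k', mul_ne_zero hk0 hk0', by rw [Nat.cast_mul]; exact mul_ne_zero hkF hkF',
        fun m hm hm0 => ?_⟩
      letI : Algebra (IntermediateField.adjoin F {g m}) B :=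
        (u8_incl (hle m hm0)).toRingHom.toAlgebra
      have hu := hk m (dvd_trans (dvd_mul_right _ _) hm) hm0
      have hv := hk' m (dvd_trans (dvd_mul_left _ _) hm) hm0
      have hu0 : (⟨((u : B) : Ω), hu⟩ : IntermediateField.adjoin F {g m}) ≠ 0 := by
        intro h0
        apply u.ne_zero
        have h1 : ((u : B) : Ω) = 0 := congrArg Subtype.val h0
        exact Subtype.ext h1
      have hv0 : (⟨((v : B) : Ω), hv⟩ : IntermediateField.adjoin F {g m}) ≠ 0 := by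
        intro h0
        apply v.ne_zero
        have h1 : ((v : B) : Ω) = 0 := congrArg Subtype.val h0
        exact Subtype.ext h1
      refine ⟨symb (Units.mk0 _ hu0) (Units.mk0 _ hv0), ?_⟩
      rw [Pool.Agent.LibBrS.k2res_symb]
      congr 1
      · ext
        rfl
      · ext
        rfl
    | hn x ih =>
      obtain ⟨k, hk0, hkF, hk⟩ := ih
      refine ⟨k, hk0, hkF, fun m hm hm0 => ?_⟩
      letI : Algebra (IntermediateField.adjoin F {g m}) B :=
        (u8_incl (hle m hm0)).toRingHom.toAlgebra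
      obtain ⟨y, hy⟩ := hk m hm hm0
      exact ⟨-y, by rw [map_neg, hy]⟩
    | ha x x' ih ih' =>
      obtain ⟨k, hk0, hkF, hk⟩ := ih
      obtain ⟨k', hk0', hkF', hk'⟩ := ih'
      refine ⟨k * k', mul_ne_zero hk0 hk0', by rw [Nat.cast_mul]; exact mul_ne_zero hkF hkF',
        fun m hm hm0 => ?_⟩
      letI : Algebra (IntermediateField.adjoin F {g m}) B :=
        (u8_incl (hle m hm0)).toRingHom.toAlgebra
      obtain ⟨y, hy⟩ := hk m (dvd_trans (dvd_mul_right _ _) hm) hm0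
      obtain ⟨y', hy'⟩ := hk' m (dvd_trans (dvd_mul_left _ _) hm) hm0
      exact ⟨y + y', by rw [map_add, hy, hy']⟩
  obtain ⟨k, hk0, hkF, hk⟩ := key
  letI : Algebra (IntermediateField.adjoin F {g k}) B :=
    (u8_incl (hle k hk0)).toRingHom.toAlgebra
  have : IsScalarTower F (IntermediateField.adjoin F {g k}) B :=
    IsScalarTower.of_algebraMap_eq fun a => ((u8_incl (hle k hk0)).commutes a).symm
  obtain ⟨y, hy⟩ := hk k dvd_rfl hk0
  obtain ⟨j, hj, hj'⟩ := h (IntermediateField.adjoin F {g k}) k hk0 hkF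
    ⟨g k, IntermediateField.mem_adjoin_simple_self F (g k)⟩
    (Subtype.ext (hg k hk0).1) (u8_top (g k)) y
  refine ⟨j, hj, ?_⟩
  have h1 := u8_map_base (K := B) hj'
  rwa [map_nsmul, hy] at h1

theorem infiniteU {F : Type} [Field F] (h : HQ F) (p : ℕ) [Fact p.Prime] [CharP F p]
    {E Ω : Type} [Field E] [Algebra F E] [Field Ω] [Algebra E Ω] [Algebra F Ω]
    [IsScalarTower F E Ω] {z0 : E} {N : ℕ} (hN : N ≠ 0) (hz0 : z0 ^ N = 1)
    (hE : IntermediateField.adjoin F {z0} = ⊤)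
    (x : K2 (IntermediateField.adjoin E {ξ : Ω | ∃ k : ℕ, k ≠ 0 ∧ ξ ^ k = 1})) :
    ∃ j : ℕ, j ≠ 0 ∧ j • x ∈
      baseSymbols F (IntermediateField.adjoin E {ξ : Ω | ∃ k : ℕ, k ≠ 0 ∧ ξ ^ k = 1}) :=
  u8_infinite h p hN hz0 hE rfl x

theorem exists_hom_finiteU {F : Type} [Field F] (p : ℕ) [Fact p.Prime] [CharP F p]
    {E Ω : Type} [Field E] [Algebra F E] [Field Ω] [Algebra E Ω] [Algebra F Ω]
    [IsScalarTower F E Ω] {z0 : E} {N : ℕ} (hN : N ≠ 0) (hz0 : z0 ^ N = 1)
    (hE : IntermediateField.adjoin F {z0} = ⊤) {n : ℕ}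
    {D : Type} [Ring D] [Algebra F D] [FiniteDimensional F D]
    (hD : D →ₐ[F] Matrix (Fin n) (Fin n)
      (IntermediateField.adjoin E {ξ : Ω | ∃ k : ℕ, k ≠ 0 ∧ ξ ^ k = 1})) :
    ∃ (k : ℕ) (ξ : Ω), k ≠ 0 ∧ (k : F) ≠ 0 ∧ ξ ^ k = 1 ∧
      Nonempty (D →ₐ[F] Matrix (Fin n) (Fin n) (IntermediateField.adjoin F {ξ})) := by
  classical
  choose! g hg using u8_gen Ω
  set B : IntermediateField E Ω :=
    IntermediateField.adjoin E {ξ : Ω | ∃ k : ℕ, k ≠ 0 ∧ ξ ^ k = 1} with hB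
  have hle : ∀ m, m ≠ 0 → ∀ y ∈ IntermediateField.adjoin F {g m}, y ∈ B := fun m hm => by
    rw [hB]
    exact u8_le F hm (hg m hm).1
  let b := Module.finBasis F D
  have hlev : ∀ t : Fin (finrank F D) × Fin n × Fin n, ∃ M : ℕ, M ≠ 0 ∧ (M : F) ≠ 0 ∧
      ∀ M', M ∣ M' → M' ≠ 0 →
        ((hD (b t.1) t.2.1 t.2.2 : B) : Ω) ∈ IntermediateField.adjoin F {g M'} :=
    fun t => u8_level F p hN hz0 hE hg (hD (b t.1) t.2.1 t.2.2).2
  choose κ hκ0 hκF hκ using hlev
  set k : ℕ := ∏ t, κ t with hk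
  have hk0 : k ≠ 0 := Finset.prod_ne_zero_iff.2 fun t _ => hκ0 t
  have hkF : (k : F) ≠ 0 := by
    rw [hk, Nat.cast_prod]
    exact Finset.prod_ne_zero_iff.2 fun t _ => hκF t
  set K : IntermediateField F Ω := IntermediateField.adjoin F {g k} with hK
  have hk1 : ∀ (i : Fin (finrank F D)) (x y : Fin n), ((hD (b i) x y : B) : Ω) ∈ K :=
    fun i x y => hκ (i, x, y) k (Finset.dvd_prod_of_mem κ (Finset.mem_univ _)) hk0
  have hk2 : ∀ (d : D) (x y : Fin n), ((hD d x y : B) : Ω) ∈ K := by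
    intro d x y
    have h1 : hD d = ∑ i, b.repr d i • hD (b i) := by
      conv_lhs => rw [← b.sum_repr d]
      rw [map_sum]
      exact Finset.sum_congr rfl fun i _ => map_smul _ _ _
    rw [h1, Matrix.sum_apply]
    have h2 : (((∑ i, (b.repr d i • hD (b i)) x y : B)) : Ω) =
        ∑ i, b.repr d i • ((hD (b i) x y : B) : Ω) := by
      rw [AddSubmonoidClass.coe_finsetSum]
      refine Finset.sum_congr rfl fun i _ => ?_
      rw [Matrix.smul_apply, Algebra.smul_def, Algebra.smul_def, MulMemClass.coe_mul]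
      congr 1
    rw [h2]
    exact K.sum_mem fun i _ => K.smul_mem (hk1 i x y)
  let ι : Matrix (Fin n) (Fin n) K →ₐ[F] Matrix (Fin n) (Fin n) B :=
    (u8_incl (hle k hk0)).mapMatrix
  have hι : Function.Injective ι := by
    intro M N h
    ext x y
    have h1 : ι M x y = ι N x y := congrFun (congrFun h x) y
    have h2 : ((ι M x y : B) : Ω) = ((ι N x y : B) : Ω) := congrArg Subtype.val h1
    exact h2
  have hr : ∀ d, hD d ∈ ι.range := by
    intro d
    refine ⟨fun x y => ⟨((hD d x y : B) : Ω), hk2 d x y⟩, ?_⟩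
    ext x y
    rfl
  exact ⟨k, g k, hk0, hkF, (hg k hk0).1,
    ⟨(AlgEquiv.ofInjective ι hι).symm.toAlgHom.comp (hD.codRestrict ι.range hr)⟩⟩

/-- `exists_cyclo` (with n = 1), base change of the homomorphism, `cyclic_descent`. -/
theorem split_of_finite {F : Type} [Field F] (p : ℕ) [Fact p.Prime] [CharP F p]
    (hF : ∀ n : ℕ, n ≠ 0 → ∀ a : F, ∃ b : F, b ^ n = a) {Ω : Type} [Field Ω] [Algebra F Ω]
    {k : ℕ} (hk : k ≠ 0) (hkF : (k : F) ≠ 0) {ξ : Ω} (hξ : ξ ^ k = 1) {D : Type} [Ring D]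
    [Algebra F D] [IsSimpleRing D] [Algebra.IsCentral F D] {n : ℕ} (hn : n ≠ 0)
    (hDn : finrank F D = n ^ 2)
    (f : D →ₐ[F] Matrix (Fin n) (Fin n) (IntermediateField.adjoin F {ξ})) :
    Nonempty (D ≃ₐ[F] Matrix (Fin n) (Fin n) F) := by
  classical
  have hp : p.Prime := Fact.out
  have : FiniteDimensional F D := FiniteDimensional.of_finrank_pos (by
    rw [hDn]
    exact pow_pos (Nat.pos_of_ne_zero hn) 2)
  have hcop : k.Coprime p := by
    rw [Nat.coprime_comm, hp.coprime_iff_not_dvd]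
    exact fun h => hkF ((CharP.cast_eq_zero_iff F p k).2 h)
  obtain ⟨K, _, _, _, _, _, _, hcyc, _⟩ := LibBrS.exists_cyclo (F := F)
    (E := IntermediateField.adjoin F {ξ}) p hcop (Nat.pos_of_ne_zero hk)
    (ζ := ⟨ξ, IntermediateField.mem_adjoin_simple_self F ξ⟩) (Subtype.ext hξ) (u8_top ξ)
    (n := 1) (Nat.coprime_one_left p) one_pos
  let f'' : D →ₐ[F] Matrix (Fin n) (Fin n) K :=
    (IsScalarTower.toAlgHom F (IntermediateField.adjoin F {ξ}) K).mapMatrix.comp f
  have : Nonempty (Fin n) := ⟨⟨0, Nat.pos_of_ne_zero hn⟩⟩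
  let σ : K ⊗[F] D →ₐ[K] Matrix (Fin n) (Fin n) K :=
    Algebra.TensorProduct.lift (Algebra.ofId K _) f'' (fun x y => Algebra.commutes x (f'' y))
  have : IsSimpleRing (K ⊗[F] D) := LibMS46.isSimpleRing_baseChange F K D
  have hσ : Function.Injective σ := σ.toRingHom.injective
  have hdim : finrank K (K ⊗[F] D) = finrank K (Matrix (Fin n) (Fin n) K) := by
    rw [Module.finrank_baseChange, hDn, Module.finrank_matrix, Module.finrank_self,
      Fintype.card_fin]
    ring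
  have hbij : Function.Bijective σ := ⟨hσ,
    (LinearMap.injective_iff_surjective_of_finrank_eq_finrank hdim (f := σ.toLinearMap)).1 hσ⟩
  exact LibBrS.cyclic_descent (F := F) (L := K) hcyc
    (fun c => hF (finrank F K) Module.finrank_pos.ne' c) hn (AlgEquiv.ofBijective σ hbij)

end Pool.Agent.LibCocU
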