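import Pool.Agent.LibCocU.Uni
import Pool.Agent.LibMS46.Assembly

/-!
The general theorem on products of symbol algebras, without the hypothesis on `K_2`.
-/

set_option autoImplicit false

open Finset Module Pool.Agent.LibK2Tower Pool.Agent.LibCoc63 Pool.Agent.LibBrS
open scoped TensorProduct

namespace Pool.Agent.LibCocU

theorem tensorPow_split_of_div {F E K : Type} [Field F] [Field E] [Field K] [Algebra F E]
    [Algebra E K] [Algebra F K] [IsScalarTower F E K] [FiniteDimensional E K] (p : ℕ)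
    [Fact p.Prime] [CharP F p] (hF : ∀ n : ℕ, n ≠ 0 → ∀ a : F, ∃ b : F, b ^ n = a)
    {N : ℕ} (hN : N ≠ 0) {z0 : E} (hz0 : z0 ^ N = 1)
    (hE : IntermediateField.adjoin F {z0} = ⊤)
    {m : ℕ} (hm : 0 < m) {ζ : E} (hζ : IsPrimitiveRoot ζ m)
    {A : Type} [Ring A] [Algebra F A] (hA : LibMS46.IsCSA F A)
    (hsym : ∃ (A' : Type) (_ : Ring A') (_ : Algebra K A'),
      IsSymbProd K m (algebraMap E K ζ) A' ∧ BrEq K (K ⊗[F] A) A')
    {T : Type} [Ring T] [Algebra F T] (hT : LibMS46.IsTensorPow F A (finrank E K) T) :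
    ∃ n : ℕ, n ≠ 0 ∧ Nonempty (T ≃ₐ[F] Matrix (Fin n) (Fin n) F) :=
  tensorPow_split p hF (fun _ _ _ _ hN' _ _ hζ' hE' x => LibMS46.k2_torsion p hF hN' hζ' hE' x)
    hN hz0 hE hm hζ hA hsym hT

end Pool.Agent.LibCocU
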