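import Pool.Agent.LibCoc63.RTDefs
import Pool.Agent.LibK2Tower.Symbol
import Pool.Agent.LibBrS.Defs

/-!
[COCU U7] As COC S8 (see COC63_Lim.lean, copy from it), for a composite order m and a field B with all roots of unity.
x = {u, v}, j • x ∈ baseSymbols, j = p^e j', p ∤ j'. z' : PR B Ω (m j') with z'.ζ^j' = z.ζ (hroot). s_m = j' • s_(m j')
(S_root), s_(m j') kills baseSymbols (f is an (m j')-th power): 0 = j • s_(m j') x = p^e • s_m x; m • s_m x = 0; p ∤ m.
-/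

set_option autoImplicit false

open Finset Pool.Agent.LibK2Tower Pool.Agent.LibCoc63

namespace Pool.Agent.LibCocU

/-- Existence of compatible roots: choose ω primitive of order m n, ω^n = primitive of order m, z.ζ = (ω^n)^i with i prime to
m, and i' = i mod m prime to m n (`ZMod.unitsMap_surjective` or `Nat.exists_...coprime`); z'.ζ = ω^i'. -/
theorem exists_root {B Ω : Type*} [Field B] [Field Ω] [Algebra B Ω] [IsAlgClosed Ω]
    (hB : ∀ (ξ : Ω) (k : ℕ), k ≠ 0 → ξ ^ k = 1 → ∃ b : B, algebraMap B Ω b = ξ)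
    {m n : ℕ} (z : PR B Ω m) (hn : n ≠ 0) (hnΩ : (n : Ω) ≠ 0) :
    ∃ z' : PR B Ω (m * n), z'.ζ ^ n = z.ζ := by
  have hm0 : m ≠ 0 := z.pos.ne'
  have hzm : IsPrimitiveRoot (z.ζ : Ω) m := z.prim.map_of_injective (f := Units.coeHom Ω)
    Units.val_injective
  have hmn0 : m * n ≠ 0 := mul_ne_zero hm0 hn
  have i1 : NeZero m := ⟨hm0⟩
  have i2 : NeZero (m * n) := ⟨hmn0⟩
  have hmΩ : NeZero ((m : ℕ) : Ω) := hzm.neZero'
  have i3 : NeZero ((m * n : ℕ) : Ω) := ⟨by
    rw [Nat.cast_mul]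
    exact mul_ne_zero hmΩ.out hnΩ⟩
  obtain ⟨x, hx⟩ := IsAlgClosed.exists_root (Polynomial.cyclotomic (m * n) Ω) (by
    rw [Polynomial.degree_cyclotomic]
    have h1 : 0 < Nat.totient (m * n) := Nat.totient_pos.mpr (Nat.pos_of_ne_zero hmn0)
    exact_mod_cast h1.ne')
  have hxp : IsPrimitiveRoot x (m * n) := Polynomial.isRoot_cyclotomic_iff.mp hx
  obtain ⟨ω, hω⟩ : ∃ ω : Ωˣ, (ω : Ω) = x := ⟨(hxp.isUnit hmn0).unit, rfl⟩
  have hωp : IsPrimitiveRoot ω (m * n) := by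
    rw [← hω] at hxp
    exact (IsPrimitiveRoot.coe_units_iff).mp hxp
  have hωn : IsPrimitiveRoot (ω ^ n) m := hωp.pow (Nat.pos_of_ne_zero hmn0) (mul_comm m n)
  obtain ⟨i, -, hi, hi'⟩ := (hωn.isPrimitiveRoot_iff').mp z.prim
  -- lift `i`
  obtain ⟨u, hu⟩ := ZMod.unitsMap_surjective (Dvd.intro n rfl : m ∣ m * n) (ZMod.unitOfCoprime i hi)
  obtain ⟨i', hi'd⟩ : ∃ i' : ℕ, i' = ((u : ZMod (m * n))).val := ⟨_, rfl⟩
  have hcop : Nat.Coprime i' (m * n) := by
    rw [hi'd]; exact ZMod.val_coe_unit_coprime u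
  have hmod : (i' : ZMod m) = (i : ZMod m) := by
    have h1 := congrArg (fun t : (ZMod m)ˣ => (t : ZMod m)) hu
    simp only [ZMod.unitsMap_val, ZMod.coe_unitOfCoprime] at h1
    rw [← h1, hi'd, ZMod.natCast_val]
  have hmod' : i' ≡ i [MOD m] := (ZMod.natCast_eq_natCast_iff _ _ _).mp hmod
  have hζ : (ω ^ i') ^ n = z.ζ := by
    have h1 : (ω ^ n) ^ i' = (ω ^ n) ^ i :=
      pow_eq_pow_iff_modEq.mpr (by rw [← hωn.eq_orderOf]; exact hmod')
    rw [← pow_mul, mul_comm, pow_mul, h1, hi']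
  have hprim : IsPrimitiveRoot (ω ^ i') (m * n) := hωp.pow_of_coprime i' hcop
  refine ⟨⟨ω ^ i', Nat.pos_of_ne_zero hmn0, hprim, fun g => ?_⟩, hζ⟩
  obtain ⟨b, hb⟩ := hB ((ω ^ i' : Ωˣ) : Ω) (m * n) hmn0 (by
    rw [← Units.val_pow_eq_pow_val, hprim.pow_eq_one, Units.val_one])
  apply Units.ext
  rw [coe_act, ← hb, AlgEquiv.commutes]

section lim

variable {B Ω : Type*} [Field B] [Field Ω] [Algebra B Ω]

private theorem limU_cst_mul (u v : Bˣ) : cst Ω Unit (u * v) = cst Ω Unit u * cst Ω Unit v := by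
  funext x
  simp only [cst, Pi.mul_apply, map_mul]

private theorem limU_cst_pow (u : Bˣ) (n : ℕ) : cst Ω Unit (u ^ n) = cst Ω Unit u ^ n := by
  funext x
  simp only [cst, Pi.pow_apply, map_pow]

variable [IsAlgClosed Ω]

/-- The symbol of constants. -/
private noncomputable def limUC {m : ℕ} (z : PR B Ω m) (u v : Bˣ) : Additive (V B Ω) :=
  Additive.ofMul (S z (cst Ω Unit u) (cst Ω Unit v))

private theorem limU_isSymbol {m : ℕ} (z : PR B Ω m) : IsSymbol (limUC z) := by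
  refine ⟨?_, ?_, ?_⟩
  · intro u v w
    unfold limUC
    rw [limU_cst_mul, S_mul_left z (cst_mem Unit u) (cst_mem Unit v) (cst_mem Unit w), ofMul_mul]
  · intro u v w
    unfold limUC
    rw [limU_cst_mul, S_mul_right z (cst_mem Unit u) (cst_mem Unit v) (cst_mem Unit w), ofMul_mul]
  · intro u v huv
    unfold limUC
    rw [S_steinberg z (cst_mem Unit u) (cst_mem Unit v), ofMul_one]
    intro x
    have h1 : algebraMap B Ω (u : B) + algebraMap B Ω (v : B) = 1 := by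
      rw [← map_add, huv, map_one]
    simpa [cst] using h1

end lim

theorem W_eq_bot_of {F B Ω : Type*} [Field F] [Field B] [Field Ω] [Algebra F B] [Algebra B Ω]
    [IsAlgClosed Ω] (p : ℕ) [Fact p.Prime] [CharP Ω p]
    (hF : ∀ k : ℕ, k ≠ 0 → ∀ a : F, ∃ b : F, b ^ k = a)
    (hB : ∀ (ξ : Ω) (k : ℕ), k ≠ 0 → ξ ^ k = 1 → ∃ b : B, algebraMap B Ω b = ξ)
    (hQ : ∀ x : K2 B, ∃ j : ℕ, j ≠ 0 ∧ j • x ∈ baseSymbols F B) {m : ℕ} (z : PR B Ω m) :
    W z = ⊥ := by
  have hp : p.Prime := Fact.out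
  have hm0 : m ≠ 0 := z.pos.ne'
  have hzm : IsPrimitiveRoot (z.ζ : Ω) m := z.prim.map_of_injective (f := Units.coeHom Ω)
    Units.val_injective
  have i1 : NeZero m := ⟨hm0⟩
  have hmΩ : NeZero ((m : ℕ) : Ω) := hzm.neZero'
  have hpm : ¬ p ∣ m := fun h => hmΩ.out ((CharP.cast_eq_zero_iff Ω p m).mpr h)
  -- the symbols kill the base
  have h1 : ∀ {k : ℕ} (z' : PR B Ω k) (x : K2 B), x ∈ baseSymbols F B →
      LibBrS.k2lift (limUC z') (limU_isSymbol z') x = 0 := by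
    intro k z' x hx
    have hle : baseSymbols F B ≤ (LibBrS.k2lift (limUC z') (limU_isSymbol z')).ker := by
      rw [baseSymbols, AddSubgroup.closure_le]
      rintro x ⟨f, e, rfl⟩
      obtain ⟨b, hb⟩ := hF k z'.pos.ne' (f : F)
      have hb0 : b ≠ 0 := by
        rintro rfl
        rw [zero_pow z'.pos.ne'] at hb
        exact f.ne_zero hb.symm
      have hf : f = (Units.mk0 b hb0) ^ k := by
        ext
        rw [Units.val_pow_eq_pow_val, Units.val_mk0, hb]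
      change LibBrS.k2lift (limUC z') (limU_isSymbol z')
        (symb (Units.map (algebraMap F B).toMonoidHom f) e) = 0
      rw [LibBrS.k2lift_symb, hf, map_pow]
      unfold limUC
      rw [limU_cst_pow, S_pow_left z' (cst_mem Unit _) (cst_mem Unit _)]
      rfl
    exact hle hx
  have key : ∀ u w : Bˣ, S z (cst Ω Unit u) (cst Ω Unit w) = 1 := by
    intro u w
    obtain ⟨j, hj, hjx⟩ := hQ (symb u w)
    obtain ⟨e, j', hj', hja⟩ := Nat.exists_eq_pow_mul_and_not_dvd hj p hp.ne_one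
    have hj'0 : j' ≠ 0 := by
      rintro rfl
      exact hj' (dvd_zero p)
    obtain ⟨z', hz'⟩ := exists_root hB z hj'0
      (fun h => hj' ((CharP.cast_eq_zero_iff Ω p j').mp h))
    have e1 : S z (cst Ω Unit u) (cst Ω Unit w) =
        S z' (cst Ω Unit u) (cst Ω Unit w) ^ j' :=
      S_root z z' rfl hz'.symm (cst_mem Unit u) (cst_mem Unit w)
    have e2 : S z' (cst Ω Unit u) (cst Ω Unit w) ^ j = 1 := by
      have h2 := h1 z' _ hjx
      rw [map_nsmul, LibBrS.k2lift_symb] at h2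
      exact h2
    have e3 : S z (cst Ω Unit u) (cst Ω Unit w) ^ (p ^ e) = 1 := by
      have e7 : j' * p ^ e = j := by rw [hja, mul_comm]
      rw [e1, ← pow_mul]
      exact (congrArg (fun t : ℕ => S z' (cst Ω Unit u) (cst Ω Unit w) ^ t) e7).trans e2
    have e4 : S z (cst Ω Unit u) (cst Ω Unit w) ^ m = 1 :=
      S_pow_eq_one z (cst_mem Unit u) (cst_mem Unit w)
    have e5 : orderOf (S z (cst Ω Unit u) (cst Ω Unit w)) ∣ Nat.gcd (p ^ e) m :=
      Nat.dvd_gcd (orderOf_dvd_of_pow_eq_one e3) (orderOf_dvd_of_pow_eq_one e4)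
    have e6 : Nat.gcd (p ^ e) m = 1 :=
      Nat.Coprime.pow_left e ((Nat.Prime.coprime_iff_not_dvd hp).2 hpm)
    rw [e6, Nat.dvd_one] at e5
    exact orderOf_eq_one_iff.1 e5
  rw [W, Subgroup.closure_eq_bot_iff]
  rintro v ⟨u, w, rfl⟩
  exact key u w

end Pool.Agent.LibCocU
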