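import Pool.Agent.LibCoc63.Tensor
import Pool.Agent.LibCoc63.Desc
import Pool.Agent.LibCocU.FinU
import Pool.Agent.LibMS46.Pow

/-!
[COCU U9] Tensor powers, and splitting over F from the class over B = E(all roots of unity).
exists_isCls_pow: induction on IsTensorPow; zero: F → M_1(Ω) (index type Unit), A = 1, δ = 1; succ: isCls_tensor.
split_of_isCls_one: exists_hom_of_isCls_one (B is perfect: algebraic over the perfect field F, or over E),
reindex n' to Fin, exists_hom_finiteU, split_of_finite.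
-/

set_option autoImplicit false

open Finset Module Pool.Agent.LibCoc63
open scoped TensorProduct

namespace Pool.Agent.LibCocU

theorem exists_isCls_pow {F B Ω : Type} [Field F] [Field B] [Field Ω] [Algebra F B]
    [Algebra B Ω] [Algebra F Ω] [IsScalarTower F B Ω] {A : Type} [Ring A] [Algebra F A]
    {n : Type} [Fintype n] [DecidableEq n] [Nonempty n] {ρ : A →ₐ[F] Matrix n n Ω}
    (hρ : IsRep ρ) {v : V B Ω} (hv : IsCls B ρ v) {k : ℕ} {T : Type} [Ring T] [Algebra F T]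
    (hT : LibMS46.IsTensorPow F A k T) :
    ∃ (n' : Type) (_ : Fintype n') (_ : DecidableEq n') (_ : Nonempty n')
      (σ : T →ₐ[F] Matrix n' n' Ω), IsRep σ ∧ IsCls B σ (v ^ k) := by
  induction hT with
  | zero =>
    have hrep : IsRep (Algebra.ofId F (Matrix Unit Unit Ω)) := by
      refine ⟨?_, by simp⟩
      rw [eq_top_iff]
      intro M _
      have h1 : M = M () () • (Algebra.ofId F (Matrix Unit Unit Ω)) 1 := by
        rw [map_one]
        ext i j
        simp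
      rw [h1]
      exact Submodule.smul_mem _ _ (Submodule.subset_span ⟨1, rfl⟩)
    obtain ⟨v0, hv0⟩ := exists_isCls B hrep
    obtain ⟨e⟩ : Nonempty (F ≃ₐ[F] Matrix (Fin 1) (Fin 1) F) :=
      split_of_hom one_ne_zero (by simp) (Algebra.ofId F _)
    have h1 : v0 = 1 := isCls_split e hrep hv0
    refine ⟨Unit, inferInstance, inferInstance, inferInstance, _, hrep, ?_⟩
    rw [pow_zero, ← h1]
    exact hv0
  | succ k T' h ih =>
    obtain ⟨n', i1, i2, i3, σ, hσ, hc⟩ := ih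
    obtain ⟨τ, hτ, hτc⟩ := isCls_tensor hρ hσ hv hc
    refine ⟨n × n', inferInstance, inferInstance, inferInstance, τ, hτ, ?_⟩
    rw [pow_succ']
    exact hτc

theorem split_of_isCls_one {F : Type} [Field F] (p : ℕ) [Fact p.Prime] [CharP F p]
    (hF : ∀ n : ℕ, n ≠ 0 → ∀ a : F, ∃ b : F, b ^ n = a)
    {E Ω : Type} [Field E] [Algebra F E] [Field Ω] [Algebra E Ω] [Algebra F Ω]
    [IsScalarTower F E Ω] [IsAlgClosed Ω] [Algebra.IsAlgebraic F Ω] {z0 : E} {N : ℕ}
    (hN : N ≠ 0) (hz0 : z0 ^ N = 1) (hE : IntermediateField.adjoin F {z0} = ⊤)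
    {T : Type} [Ring T] [Algebra F T] (hT : LibMS46.IsCSA F T)
    {n : Type} [Fintype n] [DecidableEq n] [Nonempty n] {σ : T →ₐ[F] Matrix n n Ω}
    (hσ : IsRep σ)
    (h : IsCls (IntermediateField.adjoin E {ξ : Ω | ∃ k : ℕ, k ≠ 0 ∧ ξ ^ k = 1}) σ 1) :
    ∃ m : ℕ, m ≠ 0 ∧ Nonempty (T ≃ₐ[F] Matrix (Fin m) (Fin m) F) := by
  obtain ⟨_, _, _⟩ := hT
  have hp : p.Prime := Fact.out
  have hexp : ExpChar F p := ExpChar.prime hp
  have hperf : PerfectRing F p := PerfectRing.ofSurjective F p (by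
    intro a
    obtain ⟨b, hb⟩ := hF p hp.ne_zero a
    exact ⟨b, hb⟩)
  have hpF : PerfectField F := PerfectRing.toPerfectField F p
  have htow : IsScalarTower F
      (IntermediateField.adjoin E {ξ : Ω | ∃ k : ℕ, k ≠ 0 ∧ ξ ^ k = 1}) Ω :=
    IsScalarTower.of_algebraMap_eq fun _ => rfl
  have halgFB : Algebra.IsAlgebraic F
      (IntermediateField.adjoin E {ξ : Ω | ∃ k : ℕ, k ≠ 0 ∧ ξ ^ k = 1}) :=
    Algebra.IsAlgebraic.tower_bot F _ Ω
  have halgBO : Algebra.IsAlgebraic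
      (IntermediateField.adjoin E {ξ : Ω | ∃ k : ℕ, k ≠ 0 ∧ ξ ^ k = 1}) Ω :=
    Algebra.IsAlgebraic.tower_top (K := F) _
  have hpB : PerfectField (IntermediateField.adjoin E {ξ : Ω | ∃ k : ℕ, k ≠ 0 ∧ ξ ^ k = 1}) :=
    Algebra.IsAlgebraic.perfectField (K := F)
  obtain ⟨f⟩ := exists_hom_of_isCls_one h
  let e := Fintype.equivFin n
  let g : T →ₐ[F] Matrix (Fin (Fintype.card n)) (Fin (Fintype.card n))
      (IntermediateField.adjoin E {ξ : Ω | ∃ k : ℕ, k ≠ 0 ∧ ξ ^ k = 1}) :=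
    ((Matrix.reindexAlgEquiv F
      (IntermediateField.adjoin E {ξ : Ω | ∃ k : ℕ, k ≠ 0 ∧ ξ ^ k = 1}) e : _ ≃ₐ[F] _) :
      _ →ₐ[F] _).comp f
  obtain ⟨k, ξ, hk, hkF, hξ, ⟨f'⟩⟩ := exists_hom_finiteU p hN hz0 hE g
  exact ⟨Fintype.card n, Fintype.card_ne_zero,
    split_of_finite p hF hk hkF hξ Fintype.card_ne_zero hσ.2 f'⟩

end Pool.Agent.LibCocU
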