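import Pool.Agent.LibCocU.Symb
import Pool.Agent.LibCoc63.Tensor
import Pool.Agent.LibMS46.Central

/-!
[COCU U6] Products of symbol algebras and Brauer equivalence. isCls_symbProd: induction (K itself: the representation
K → M_1(Ω), class 1 by isCls_split; isCls_tensor, then reindex n × n' ≃ Fin or keep general index types).
isCls_matrix: M_r(C) ≅ C ⊗ M_r(K) (`Matrix` / Kronecker), isCls_tensor, isCls_split, isCls_unique.
isCls_baseChange: ρ : A →ₐ[F] M_n(Ω) gives K ⊗ A →ₐ[K] M_n(Ω) with the same cochains (IsRep: span, finrank_baseChange).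
mem_W_of_brEq: from these by isCls_unique.
-/

set_option autoImplicit false

open Finset Module Pool.Agent.LibCoc63 Pool.Agent.LibBrS
open scoped TensorProduct

namespace Pool.Agent.LibCocU

/-- Transport of a representation along an isomorphism. -/
private theorem isRep_comp {K Ω : Type} [Field K] [Field Ω] [Algebra K Ω] {C C' : Type}
    [Ring C] [Algebra K C] [Ring C'] [Algebra K C'] (e : C' ≃ₐ[K] C) {n : Type} [Fintype n]
    [DecidableEq n] {ρ : C →ₐ[K] Matrix n n Ω} (hρ : IsRep ρ) :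
    IsRep (ρ.comp (e : C' →ₐ[K] C)) := by
  refine ⟨?_, ?_⟩
  · rw [← hρ.1]
    congr 1
    ext M
    constructor
    · rintro ⟨c, rfl⟩
      exact ⟨e c, rfl⟩
    · rintro ⟨c, rfl⟩
      exact ⟨e.symm c, by simp⟩
  · rw [← hρ.2]
    exact e.toLinearEquiv.finrank_eq

private theorem isCls_comp {K Ω : Type} [Field K] [Field Ω] [Algebra K Ω] {C C' : Type}
    [Ring C] [Algebra K C] [Ring C'] [Algebra K C'] (e : C' ≃ₐ[K] C) {n : Type} [Fintype n]
    [DecidableEq n] {ρ : C →ₐ[K] Matrix n n Ω} {w : V K Ω} (hw : IsCls K ρ w) :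
    IsCls K (ρ.comp (e : C' →ₐ[K] C)) w := by
  obtain ⟨A, δ, ⟨h1, h2, h3⟩, rfl⟩ := hw
  exact ⟨A, δ, ⟨h1, fun g d => h2 g (e d), h3⟩, rfl⟩

/-- The standard representation of a matrix algebra. -/
private theorem exists_std (K Ω : Type) [Field K] [Field Ω] [Algebra K Ω] (r : ℕ) :
    ∃ ρ0 : Matrix (Fin r) (Fin r) K →ₐ[K] Matrix (Fin r) (Fin r) Ω,
      IsRep ρ0 ∧ IsCls K ρ0 (1 : V K Ω) := by
  obtain ⟨ρ0, hρ0⟩ : ∃ ρ0 : Matrix (Fin r) (Fin r) K →ₐ[K] Matrix (Fin r) (Fin r) Ω,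
      ∀ M, ρ0 M = M.map (algebraMap K Ω) :=
    ⟨(Algebra.ofId K Ω).mapMatrix, fun M => rfl⟩
  refine ⟨ρ0, ⟨?_, ?_⟩, ?_⟩
  · rw [eq_top_iff]
    intro M _
    rw [Matrix.matrix_eq_sum_single M]
    refine Submodule.sum_mem _ fun i _ => Submodule.sum_mem _ fun j _ => ?_
    have h1 : Matrix.single i j (M i j) = M i j • ρ0 (Matrix.single i j 1) := by
      rw [hρ0]
      ext a b
      rw [Matrix.smul_apply, Matrix.map_apply, Matrix.single_apply, Matrix.single_apply]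
      by_cases h2 : i = a ∧ j = b
      · rw [if_pos h2, if_pos h2, map_one, smul_eq_mul, mul_one]
      · rw [if_neg h2, if_neg h2, map_zero, smul_zero]
    rw [h1]
    exact Submodule.smul_mem _ _ (Submodule.subset_span ⟨_, rfl⟩)
  · rw [finrank_matrix, finrank_self, Fintype.card_fin, mul_one, sq]
  · refine ⟨1, 1, ⟨Cts.const 1, ?_, ?_⟩, rfl⟩
    · intro g d
      change (1 : Matrix (Fin r) (Fin r) Ω) * (ρ0 d).map g = ρ0 d * 1
      rw [one_mul, mul_one, hρ0]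
      ext i j
      rw [Matrix.map_apply, Matrix.map_apply, AlgEquiv.commutes]
    · intro g h
      change (1 : Matrix (Fin r) (Fin r) Ω) * (1 : Matrix (Fin r) (Fin r) Ω).map g =
        ((1 : Ωˣ) : Ω) • (1 : Matrix (Fin r) (Fin r) Ω)
      rw [one_mul, Units.val_one, one_smul, Matrix.map_one _ (map_zero g) (map_one g)]

private theorem exists_one (K Ω : Type) [Field K] [Field Ω] [Algebra K Ω] :
    ∃ ρ0 : K →ₐ[K] Matrix Unit Unit Ω, IsRep ρ0 ∧ IsCls K ρ0 (1 : V K Ω) := by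
  obtain ⟨ρ0, hρ0⟩ : ∃ ρ0 : K →ₐ[K] Matrix Unit Unit Ω,
      ∀ c, ρ0 c = algebraMap K (Matrix Unit Unit Ω) c :=
    ⟨Algebra.ofId K _, fun M => rfl⟩
  refine ⟨ρ0, ⟨?_, ?_⟩, ?_⟩
  · rw [eq_top_iff]
    intro M _
    have h1 : M = M () () • ρ0 1 := by
      rw [map_one]
      ext a b
      rw [Matrix.smul_apply, Matrix.one_apply, if_pos (Subsingleton.elim _ _), smul_eq_mul,
        mul_one]
    rw [h1]
    exact Submodule.smul_mem _ _ (Submodule.subset_span ⟨_, rfl⟩)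
  · rw [finrank_self, Fintype.card_unit, one_pow]
  · refine ⟨1, 1, ⟨Cts.const 1, ?_, ?_⟩, rfl⟩
    · intro g d
      change (1 : Matrix Unit Unit Ω) * (ρ0 d).map g = ρ0 d * 1
      rw [one_mul, mul_one, hρ0]
      ext i j
      rw [Matrix.map_apply, Matrix.algebraMap_matrix_apply, if_pos (Subsingleton.elim _ _),
        AlgEquiv.commutes]
    · intro g h
      change (1 : Matrix Unit Unit Ω) * (1 : Matrix Unit Unit Ω).map g =
        ((1 : Ωˣ) : Ω) • (1 : Matrix Unit Unit Ω)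
      rw [one_mul, Units.val_one, one_smul, Matrix.map_one _ (map_zero g) (map_one g)]

theorem isCls_symbProd {K Ω : Type} [Field K] [Field Ω] [Algebra K Ω] [IsAlgClosed Ω] {m : ℕ}
    (z : PR K Ω m) {ζ : K} (hζ : algebraMap K Ω ζ = z.ζ) {A : Type} [Ring A]
    [Algebra K A] (hA : IsSymbProd K m ζ A) :
    ∃ (n : Type) (_ : Fintype n) (_ : DecidableEq n) (_ : Nonempty n) (ρ : A →ₐ[K] Matrix n n Ω)
      (w : V K Ω), IsRep ρ ∧ IsCls K ρ w ∧ w ∈ W z := by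
  induction hA with
  | one =>
    obtain ⟨ρ0, h1, h2⟩ := exists_one K Ω
    exact ⟨Unit, inferInstance, inferInstance, inferInstance, ρ0, 1, h1, h2, one_mem _⟩
  | mul a b ha hb A B hA hB ih =>
    obtain ⟨n', _, _, _, ρ', w', hρ', hw', hW⟩ := ih
    have hA' : IsSymb K m ζ ((Units.mk0 a ha : Kˣ) : K) ((Units.mk0 b hb : Kˣ) : K) A := hA
    obtain ⟨ρ, hρ, hw⟩ := isCls_symb z hζ hA'
    obtain ⟨σ, hσ, hv⟩ := isCls_tensor hρ hρ' hw hw'
    have : Nonempty (Fin m) := ⟨⟨0, z.pos⟩⟩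
    exact ⟨Fin m × n', inferInstance, inferInstance, inferInstance, σ, _, hσ, hv,
      mul_mem (Subgroup.subset_closure ⟨_, _, rfl⟩) hW⟩

theorem isCls_matrix {K Ω : Type} [Field K] [Field Ω] [Algebra K Ω] [IsAlgClosed Ω] {C : Type}
    [Ring C] [Algebra K C] {n : Type} [Fintype n] [DecidableEq n] [Nonempty n]
    {ρ : C →ₐ[K] Matrix n n Ω} (hρ : IsRep ρ) {w : V K Ω} (hw : IsCls K ρ w) {r : ℕ}
    (hr : r ≠ 0) :
    ∃ (n' : Type) (_ : Fintype n') (_ : DecidableEq n') (_ : Nonempty n')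
      (σ : Matrix (Fin r) (Fin r) C →ₐ[K] Matrix n' n' Ω), IsRep σ ∧ IsCls K σ w := by
  obtain ⟨ρ0, h0, hv0⟩ := exists_std K Ω r
  obtain ⟨σ, hσ, hv⟩ := isCls_tensor hρ h0 hw hv0
  have e1 : w * (1 : V K Ω) = w := mul_one w
  have hv' : IsCls K σ w := e1 ▸ hv
  have hne : Nonempty (Fin r) := ⟨⟨0, Nat.pos_of_ne_zero hr⟩⟩
  have hne' : Nonempty (n × Fin r) := inferInstance
  obtain ⟨e⟩ : Nonempty (Matrix (Fin r) (Fin r) C ≃ₐ[K] C ⊗[K] Matrix (Fin r) (Fin r) K) :=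
    ⟨matrixEquivTensor (Fin r) K C⟩
  have hσ1 := isRep_comp e hσ
  have hσ2 := isCls_comp e hv'
  exact ⟨n × Fin r, inferInstance, inferInstance, hne', _, hσ1, hσ2⟩

theorem isCls_baseChange {F K Ω : Type} [Field F] [Field K] [Field Ω] [Algebra F K]
    [Algebra K Ω] [Algebra F Ω] [IsScalarTower F K Ω] {A : Type} [Ring A] [Algebra F A]
    {n : Type} [Fintype n] [DecidableEq n] [Nonempty n] {ρ : A →ₐ[F] Matrix n n Ω}
    (hρ : IsRep ρ) {w : V K Ω} (hw : IsCls K ρ w) :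
    ∃ σ : K ⊗[F] A →ₐ[K] Matrix n n Ω, IsRep σ ∧ IsCls K σ w := by
  obtain ⟨σ, hσ⟩ : ∃ σ : K ⊗[F] A →ₐ[K] Matrix n n Ω, ∀ k a, σ (k ⊗ₜ[F] a) = k • ρ a := by
    have hc : ∀ (x : K) (y : A), Commute (Algebra.ofId K (Matrix n n Ω) x) (ρ y) :=
      fun x y => Algebra.commutes x (ρ y)
    refine ⟨Algebra.TensorProduct.lift (Algebra.ofId K _) ρ hc, fun k a => ?_⟩
    rw [Algebra.TensorProduct.lift_tmul, Algebra.smul_def]
    rfl
  refine ⟨σ, ⟨?_, ?_⟩, ?_⟩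
  · rw [eq_top_iff, ← hρ.1]
    refine Submodule.span_mono ?_
    rintro _ ⟨a, rfl⟩
    exact ⟨1 ⊗ₜ[F] a, by rw [hσ, one_smul]⟩
  · rw [Module.finrank_baseChange, hρ.2]
  · obtain ⟨U, δ, ⟨h1, h2, h3⟩, rfl⟩ := hw
    refine ⟨U, δ, ⟨h1, ?_, h3⟩, rfl⟩
    intro g d
    induction d using TensorProduct.induction_on with
    | zero => rw [map_zero, Matrix.map_zero _ (map_zero g), mul_zero, zero_mul]
    | tmul k a =>
      have h4 : (k • ρ a).map g = k • (ρ a).map g := by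
        ext i j
        rw [Matrix.map_apply, Matrix.smul_apply, Matrix.smul_apply, Matrix.map_apply, map_smul]
      rw [hσ, h4, mul_smul_comm, smul_mul_assoc, h2]
    | add x y hx hy => rw [map_add, Matrix.map_add _ (map_add g), mul_add, add_mul, hx, hy]

theorem mem_W_of_brEq {F K Ω : Type} [Field F] [Field K] [Field Ω] [Algebra F K]
    [Algebra K Ω] [Algebra F Ω] [IsScalarTower F K Ω] [IsAlgClosed Ω] {m : ℕ}
    (z : PR K Ω m) {ζ : K} (hζ : algebraMap K Ω ζ = z.ζ) {A : Type} [Ring A] [Algebra F A]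
    {n : Type} [Fintype n] [DecidableEq n] [Nonempty n] {ρ : A →ₐ[F] Matrix n n Ω}
    (hρ : IsRep ρ) {w : V K Ω} (hw : IsCls K ρ w) {A' : Type} [Ring A'] [Algebra K A']
    (hA' : IsSymbProd K m ζ A') (h : BrEq K (K ⊗[F] A) A') : w ∈ W z := by
  obtain ⟨r, s, hr, hs, ⟨e⟩⟩ := h
  obtain ⟨σ, hσ, hv⟩ := isCls_baseChange hρ hw
  obtain ⟨n1, _, _, _, σ1, hσ1, hv1⟩ := isCls_matrix hσ hv hr
  obtain ⟨n', _, _, _, ρ', w', hρ', hw', hW⟩ := isCls_symbProd z hζ hA'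
  obtain ⟨n2, _, _, _, σ2, hσ2, hv2⟩ := isCls_matrix hρ' hw' hs
  rw [isCls_unique hσ1 e hσ2 hv1 hv2]
  exact hW

end Pool.Agent.LibCocU
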