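import Pool.Agent.LibCoc63.Cls
import Pool.Agent.LibCoc63.RTDefs
import Pool.Agent.LibBrS.Mono
import Pool.Agent.LibBrS.Uniq

/-!
[COCU U5] The class of a symbol algebra is the symbol. u, v ∈ A generators, u v = ζ v u. α ∈ Ωˣ, α^m = a.
ρ(u) = α diag(ζ^i), ρ(v) = V, V e_j = e_(j+1) (j + 1 < m), V e_(m-1) = b e_0: ρ(u) ρ(v) = ζ ρ(v) ρ(u), V^m = b
(`LibBrS.exists_hom` gives ρ : A →ₐ[K] M_m(Ω) as a K-algebra). IsRep: `IsSymb.finrank`, and the monomials ρ(u)^i ρ(v)^j are
Ω-independent (`mono_li` over Ω), so they span. A g = V^(χ g), g(α) = ζ^(χ g) α: ρ(u) V^χ = ζ^χ V^χ ρ(u).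
A g * (A h).map g = V^(χ g + χ h) = b^(k g h) V^(χ (g h)). δ = b^k = the symbol cochain (ξ = α).
-/

set_option autoImplicit false

open Finset Module Pool.Agent.LibCoc63 Pool.Agent.LibBrS

namespace Pool.Agent.LibCocU

section shift

variable {R : Type*} [Field R] {m : ℕ}

/-- The weighted shift. -/
private def u5V (m : ℕ) (b : R) : Matrix (Fin m) (Fin m) R :=
  fun i j => if (i : ℕ) = j + 1 then 1 else if (i : ℕ) = 0 ∧ (j : ℕ) + 1 = m then b else 0

/-- The diagonal matrix. -/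
private def u5U (m : ℕ) (α ζ : R) : Matrix (Fin m) (Fin m) R :=
  Matrix.diagonal fun i => α * ζ ^ (i : ℕ)

private lemma u5U_pow {α ζ : R} (hζ : ζ ^ m = 1) : u5U m α ζ ^ m = α ^ m • 1 := by
  rw [u5U, Matrix.diagonal_pow, Matrix.smul_one_eq_diagonal]
  congr 1
  funext i
  rw [Pi.pow_apply, mul_pow, ← pow_mul, mul_comm (i : ℕ), pow_mul, hζ, one_pow, mul_one]

private lemma u5_comm {α ζ b : R} (hζ : ζ ^ m = 1) :
    u5U m α ζ * u5V m b = ζ • (u5V m b * u5U m α ζ) := by
  ext i j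
  rw [Matrix.smul_apply, u5U, Matrix.diagonal_mul, Matrix.mul_diagonal, smul_eq_mul, u5V]
  by_cases h1 : (i : ℕ) = j + 1
  · rw [if_pos h1, h1, pow_succ]
    ring
  · rw [if_neg h1]
    by_cases h2 : (i : ℕ) = 0 ∧ (j : ℕ) + 1 = m
    · rw [if_pos h2, h2.1]
      have h3 : ζ * ζ ^ (j : ℕ) = 1 := by rw [← pow_succ', h2.2, hζ]
      calc α * ζ ^ 0 * b = b * α * 1 := by ring
        _ = ζ * (b * (α * ζ ^ (j : ℕ))) := by rw [← h3]; ring
    · rw [if_neg h2]
      ring

/-- The vectors. -/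
private def u5e (m : ℕ) [NeZero m] (b : R) (n : ℕ) : Fin m → R :=
  b ^ (n / m) • Pi.single (⟨n % m, Nat.mod_lt _ (NeZero.pos m)⟩ : Fin m) 1

private lemma u5V_e [NeZero m] (b : R) (n : ℕ) : (u5V m b).mulVec (u5e m b n) = u5e m b (n + 1) := by
  have hm : 0 < m := NeZero.pos m
  rw [u5e, Matrix.mulVec_smul, Matrix.mulVec_single_one]
  have hlt : n % m < m := Nat.mod_lt _ hm
  by_cases h : n % m + 1 = m
  · have h1 : (n + 1) / m = n / m + 1 := by
      have : n + 1 = m * (n / m + 1) := by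
        have := Nat.div_add_mod n m
        rw [mul_add, mul_one]; omega
      rw [this, Nat.mul_div_cancel_left _ hm]
    have h2 : (n + 1) % m = 0 := by
      have : n + 1 = m * (n / m + 1) := by
        have := Nat.div_add_mod n m
        rw [mul_add, mul_one]; omega
      rw [this, Nat.mul_mod_right]
    funext i
    simp only [u5e, Pi.smul_apply, smul_eq_mul, h1, h2, Matrix.col_apply, u5V]
    by_cases hi : (i : ℕ) = 0
    · have hi' : i = (⟨0, hm⟩ : Fin m) := Fin.ext hi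
      subst hi'
      rw [if_neg (by simp), if_pos ⟨rfl, h⟩, Pi.single_eq_same, pow_succ, mul_one]
    · rw [if_neg (by have := i.2; omega), if_neg (by simp [hi]), Pi.single_eq_of_ne (fun h' => hi (by rw [h'])),
        mul_zero, mul_zero]
  · have h0 : n % m + 1 < m := by omega
    have h1 : (n + 1) / m = n / m := by
      have : n + 1 = m * (n / m) + (n % m + 1) := by
        have := Nat.div_add_mod n m
        omega
      rw [this, Nat.mul_add_div hm, Nat.div_eq_of_lt h0, add_zero]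
    have h2 : (n + 1) % m = n % m + 1 := by
      have : n + 1 = m * (n / m) + (n % m + 1) := by
        have := Nat.div_add_mod n m
        omega
      rw [this, Nat.mul_add_mod, Nat.mod_eq_of_lt h0]
    funext i
    simp only [u5e, Pi.smul_apply, smul_eq_mul, h1, h2, Matrix.col_apply, u5V]
    congr 1
    by_cases hi : (i : ℕ) = n % m + 1
    · have hi' : i = (⟨n % m + 1, h0⟩ : Fin m) := Fin.ext hi
      rw [if_pos hi, hi', Pi.single_eq_same]
    · rw [if_neg hi, if_neg (by omega), Pi.single_eq_of_ne (fun h' => hi (by rw [h']))]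

private lemma u5V_pow [NeZero m] (b : R) : u5V m b ^ m = b • 1 := by
  have h1 : ∀ k n : ℕ, (u5V m b ^ k).mulVec (u5e m b n) = u5e m b (n + k) := by
    intro k
    induction k with
    | zero => intro n; rw [pow_zero, Matrix.one_mulVec, add_zero]
    | succ k ih => intro n; rw [pow_succ, ← Matrix.mulVec_mulVec, u5V_e, ih, add_assoc, add_comm 1 k]
  have h2 : ∀ j : Fin m, u5e m b (j : ℕ) = Pi.single j 1 := by
    intro j
    rw [u5e, Nat.div_eq_of_lt j.2, pow_zero, one_smul]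
    congr 1
    exact Fin.ext (Nat.mod_eq_of_lt j.2)
  have h3 : ∀ j : Fin m, u5e m b ((j : ℕ) + m) = b • Pi.single j 1 := by
    intro j
    rw [← h2, u5e, u5e, smul_smul, Nat.add_div_right _ (NeZero.pos m), pow_succ, mul_comm b]
    congr 2
    exact Fin.ext (Nat.add_mod_right _ _)
  ext i j
  have h4 := h1 m j
  rw [h2, h3, Matrix.mulVec_single_one] at h4
  have h5 := congrFun h4 i
  rw [Matrix.col_apply] at h5
  rw [h5, Pi.smul_apply, Matrix.smul_apply, Matrix.one_apply, Pi.single_apply]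

end shift

theorem isCls_symb {K Ω : Type} [Field K] [Field Ω] [Algebra K Ω] [IsAlgClosed Ω] {m : ℕ}
    (z : PR K Ω m) {ζ : K} (hζ : algebraMap K Ω ζ = z.ζ) {a b : Kˣ} {A : Type} [Ring A]
    [Algebra K A] (hA : IsSymb K m ζ a b A) :
    ∃ ρ : A →ₐ[K] Matrix (Fin m) (Fin m) Ω, IsRep ρ ∧
      IsCls K ρ (S z (cst Ω Unit a) (cst Ω Unit b)) := by
  have hm0 : NeZero m := ⟨z.pos.ne'⟩
  obtain ⟨c, hcomp⟩ := comp_exists z (cst_mem (B := K) (Ω := Ω) Unit a) (cst Ω Unit b)
  rw [S_eq z (cst_mem Unit b) hcomp]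
  obtain ⟨ξ, χ, k, hχ, hξ, hχ', hk, hc⟩ := hcomp
  have hζΩ : IsPrimitiveRoot (algebraMap K Ω ζ) m := by
    rw [hζ]
    exact IsPrimitiveRoot.coe_units_iff.2 z.prim
  have hζK : IsPrimitiveRoot ζ m := hζΩ.of_map_of_injective (algebraMap K Ω).injective
  obtain ⟨hnt, u, v, hu, hv, huv, hgen⟩ := hA
  set α : Ω := (ξ () : Ω) with hα
  have hαm : α ^ m = algebraMap K Ω a := by
    rw [hα, ← Units.val_pow_eq_pow_val, hξ ()]
    rfl
  set U : Matrix (Fin m) (Fin m) Ω := u5U m α (algebraMap K Ω ζ) with hU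
  set V : Matrix (Fin m) (Fin m) Ω := u5V m (algebraMap K Ω b) with hV
  have hUm : U ^ m = (algebraMap K Ω a) • 1 := by rw [hU, u5U_pow hζΩ.pow_eq_one, hαm]
  have hVm : V ^ m = (algebraMap K Ω b) • 1 := u5V_pow _
  have hUV : U * V = (algebraMap K Ω ζ) • (V * U) := u5_comm hζΩ.pow_eq_one
  have hUm' : U ^ m = algebraMap K (Matrix (Fin m) (Fin m) Ω) a := by
    rw [hUm, algebraMap_smul, Algebra.algebraMap_eq_smul_one]
  have hVm' : V ^ m = algebraMap K (Matrix (Fin m) (Fin m) Ω) b := by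
    rw [hVm, algebraMap_smul, Algebra.algebraMap_eq_smul_one]
  have hUV' : U * V = ζ • (V * U) := by rw [hUV, algebraMap_smul]
  obtain ⟨ρ, hρu, hρv⟩ := exists_hom hζK z.pos a.ne_zero b.ne_zero hu hv huv hgen hUm' hVm' hUV'
  have ha0 : (algebraMap K Ω a) ≠ 0 := (map_ne_zero _).2 a.ne_zero
  have hb0 : (algebraMap K Ω b) ≠ 0 := (map_ne_zero _).2 b.ne_zero
  have hUm'' : U ^ m = algebraMap Ω (Matrix (Fin m) (Fin m) Ω) (algebraMap K Ω a) := by
    rw [hUm, Algebra.algebraMap_eq_smul_one (R := Ω) (A := Matrix (Fin m) (Fin m) Ω)]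
  have hVm'' : V ^ m = algebraMap Ω (Matrix (Fin m) (Fin m) Ω) (algebraMap K Ω b) := by
    rw [hVm, Algebra.algebraMap_eq_smul_one (R := Ω) (A := Matrix (Fin m) (Fin m) Ω)]
  have hrep : IsRep ρ := by
    refine ⟨?_, ?_⟩
    · have hli := mono_li hζΩ z.pos ha0 hb0 hUm'' hVm'' hUV
      have hcard : Fintype.card (Fin m × Fin m) = finrank Ω (Matrix (Fin m) (Fin m) Ω) := by
        rw [Module.finrank_matrix]
        simp
      have hsp := hli.span_eq_top_of_card_eq_finrank' hcard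
      rw [eq_top_iff, ← hsp]
      apply Submodule.span_mono
      rintro _ ⟨ij, rfl⟩
      exact ⟨u ^ (ij.1 : ℕ) * v ^ (ij.2 : ℕ), by rw [map_mul, map_pow, map_pow, hρu, hρv]⟩
    · rw [Fintype.card_fin]
      exact (IsSymb.finrank hζK z.pos a.ne_zero b.ne_zero ⟨hnt, u, v, hu, hv, huv, hgen⟩).2
  refine ⟨ρ, hrep, ?_⟩
  -- the unit V
  have hVu : IsUnit V := isUnit_of_pow z.pos hb0 hVm''
  obtain ⟨W, hW⟩ := hVu
  have hmapV : ∀ g : Ω ≃ₐ[K] Ω, V.map g = V := by
    intro g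
    ext i j
    rw [Matrix.map_apply, hV, u5V]
    split_ifs with h1 h2
    · exact map_one g
    · exact g.commutes _
    · exact map_zero g
  have hmapW : ∀ (g : Ω ≃ₐ[K] Ω) (n : ℤ), ((W ^ n : (Matrix (Fin m) (Fin m) Ω)ˣ) : Matrix (Fin m) (Fin m) Ω).map g =
      ((W ^ n : (Matrix (Fin m) (Fin m) Ω)ˣ) : Matrix (Fin m) (Fin m) Ω) := by
    intro g n
    let φ : Matrix (Fin m) (Fin m) Ω →* Matrix (Fin m) (Fin m) Ω :=
      ((g : Ω →ₐ[K] Ω).mapMatrix : Matrix (Fin m) (Fin m) Ω →ₐ[K] Matrix (Fin m) (Fin m) Ω)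
    have h1 : Units.map φ W = W := Units.ext (by
      show (W : Matrix (Fin m) (Fin m) Ω).map g = W
      rw [hW, hmapV])
    have h2 : Units.map φ (W ^ n) = W ^ n := by rw [map_zpow, h1]
    exact congrArg Units.val h2
  have hact : ∀ g : Ω ≃ₐ[K] Ω, g α = (algebraMap K Ω ζ) ^ (χ g ()) * α := by
    intro g
    have h1 := congrArg Units.val (hχ' g ())
    rw [Units.val_mul, Units.val_zpow_eq_zpow_val, ← hζ] at h1
    exact h1
  -- commutation
  have hzp : ∀ n : ℤ, U * ((W ^ n : (Matrix (Fin m) (Fin m) Ω)ˣ) : Matrix (Fin m) (Fin m) Ω) =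
      (algebraMap K Ω ζ) ^ n • (((W ^ n : (Matrix (Fin m) (Fin m) Ω)ˣ) : Matrix (Fin m) (Fin m) Ω) * U) := by
    have hζ0 : algebraMap K Ω ζ ≠ 0 := hζΩ.ne_zero z.pos.ne'
    have hUV2 : U * (W : Matrix (Fin m) (Fin m) Ω) = (algebraMap K Ω ζ) • ((W : Matrix (Fin m) (Fin m) Ω) * U) := by
      rw [hW]; exact hUV
    have hUV3 : U * ((W⁻¹ : (Matrix (Fin m) (Fin m) Ω)ˣ) : Matrix (Fin m) (Fin m) Ω) =
        (algebraMap K Ω ζ)⁻¹ • (((W⁻¹ : (Matrix (Fin m) (Fin m) Ω)ˣ) : Matrix (Fin m) (Fin m) Ω) * U) := by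
      rw [Units.mul_inv_eq_iff_eq_mul, smul_mul_assoc, mul_assoc, hUV2, mul_smul_comm, smul_smul, inv_mul_cancel₀ hζ0,
        one_smul, ← mul_assoc, Units.inv_mul, one_mul]
    intro n
    induction n with
    | zero => simp
    | succ n ih =>
      rw [zpow_add_one, Units.val_mul, ← mul_assoc, ih, smul_mul_assoc, mul_assoc, hUV2, mul_smul_comm, smul_smul,
        ← mul_assoc, zpow_add_one₀ hζ0]
    | pred n ih =>
      rw [zpow_sub_one, Units.val_mul, ← mul_assoc, ih, smul_mul_assoc, mul_assoc, hUV3, mul_smul_comm, smul_smul,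
        ← mul_assoc, zpow_sub_one₀ hζ0]
  refine ⟨fun g => W ^ (χ g ()), c, ⟨?_, ?_, ?_⟩, rfl⟩
  · exact hχ.comp (fun f => W ^ (f ()))
  · intro g d
    -- the subalgebra
    let φ : A →ₐ[K] Matrix (Fin m) (Fin m) Ω := ((g : Ω →ₐ[K] Ω).mapMatrix).comp ρ
    have hφ : ∀ d, φ d = (ρ d).map g := fun d => rfl
    have hd : d ∈ Algebra.adjoin K {u, v} := by rw [hgen]; exact Algebra.mem_top
    rw [← hφ]
    induction hd using Algebra.adjoin_induction with
    | mem x hx =>
      rcases hx with rfl | hx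
      · rw [hφ, hρu]
        have h1 : U.map g = (algebraMap K Ω ζ) ^ (χ g ()) • U := by
          ext i j
          rw [Matrix.map_apply, Matrix.smul_apply, smul_eq_mul, hU, u5U, Matrix.diagonal_apply]
          split_ifs with h2
          · rw [map_mul, map_pow, AlgEquiv.commutes, hact g, mul_assoc]
          · rw [map_zero, mul_zero]
        rw [h1, mul_smul_comm, hzp]
      · rw [Set.mem_singleton_iff] at hx
        subst hx
        rw [hφ, hρv, hmapV, ← hW, ← Units.val_mul, ← Units.val_mul, ← zpow_add_one, ← zpow_one_add, add_comm]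
    | algebraMap r =>
      rw [AlgHom.commutes, AlgHom.commutes, Algebra.commutes]
    | add x y _ _ hx hy => rw [map_add, map_add, mul_add, add_mul, hx, hy]
    | mul x y _ _ hx hy => rw [map_mul, map_mul, ← mul_assoc, hx, mul_assoc, hy, mul_assoc]
  · intro g h
    have h1 := hk g h ()
    have h2 : χ g () + χ h () = m * k g h () + χ (g * h) () := by
      have : χ h (g⁻¹ • ()) = χ h () := rfl
      rw [this] at h1
      linarith
    rw [hmapW, ← Units.val_mul, ← zpow_add, h2, zpow_add, Units.val_mul, zpow_mul, zpow_natCast]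
    have h3 : W ^ m = Units.map (algebraMap Ω (Matrix (Fin m) (Fin m) Ω)).toMonoidHom (cst Ω Unit b ()) := by
      ext1
      rw [Units.val_pow_eq_pow_val, hW, hVm'']
      rfl
    rw [h3, ← map_zpow]
    have h4 : cst Ω Unit b () ^ k g h () = c g h := by
      rw [hc g h]
      simp
    rw [h4]
    show (algebraMap Ω (Matrix (Fin m) (Fin m) Ω) (c g h : Ω)) * _ = _
    rw [← Algebra.smul_def]

end Pool.Agent.LibCocU
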