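import Pool.Agent.LibCocU.CorS
import Pool.Agent.LibCocU.CorA
import Pool.Agent.LibCocU.Prod
import Pool.Agent.LibCocU.LimU
import Pool.Agent.LibCocU.Pow
import Pool.Agent.LibCoc63.Inv

/-!
[COCU U10] The general theorem. Ω = AlgebraicClosure K. v = class of A over E, w over K; w ∈ W (mem_W_of_brEq), so
v^[K:E] = cor w ∈ W z (cor_cls, cor_mem_W, card_emb); over B = E(all roots of unity): (res v)^[K:E] = 1 (res_mem_W,
W_eq_bot_of with infiniteU). T = [K:E]-th tensor power of A has class (res v)^[K:E] = 1 over B (exists_isCls_pow),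
split_of_isCls_one.
-/

set_option autoImplicit false

open Finset Module Pool.Agent.LibK2Tower Pool.Agent.LibCoc63 Pool.Agent.LibBrS
open scoped TensorProduct

namespace Pool.Agent.LibCocU

/-- Tensor powers of central simple algebras are central simple. -/
theorem isCSA_pow {F A : Type} [Field F] [Ring A] [Algebra F A] (hA : LibMS46.IsCSA F A) {k : ℕ}
    {T : Type} [Ring T] [Algebra F T] (hT : LibMS46.IsTensorPow F A k T) :
    LibMS46.IsCSA F T := by
  induction hT with
  | zero => exact LibMS46.IsCSA.self F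
  | succ n B h ih => exact hA.tensor ih

/-- A field generated by a root of unity is algebraic. -/
theorem isAlgebraic_of_adjoin {F E : Type} [Field F] [Field E] [Algebra F E] {N : ℕ}
    (hN : N ≠ 0) {z0 : E} (hz0 : z0 ^ N = 1) (hE : IntermediateField.adjoin F {z0} = ⊤) :
    Algebra.IsAlgebraic F E := by
  have h1 : IsIntegral F z0 := by
    refine ⟨Polynomial.X ^ N - Polynomial.C 1, Polynomial.monic_X_pow_sub_C 1 hN, ?_⟩
    rw [Polynomial.eval₂_sub, Polynomial.eval₂_X_pow, Polynomial.eval₂_C, map_one, hz0, sub_self]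
  have h2 : FiniteDimensional F (IntermediateField.adjoin F {z0}) :=
    IntermediateField.adjoin.finiteDimensional h1
  rw [hE] at h2
  have h3 : FiniteDimensional F E :=
    Module.Finite.equiv (IntermediateField.topEquiv (F := F) (E := E)).toLinearEquiv
  infer_instance

theorem tensorPow_split {F E K : Type} [Field F] [Field E] [Field K] [Algebra F E]
    [Algebra E K] [Algebra F K] [IsScalarTower F E K] [FiniteDimensional E K] (p : ℕ)
    [Fact p.Prime] [CharP F p] (hF : ∀ n : ℕ, n ≠ 0 → ∀ a : F, ∃ b : F, b ^ n = a)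
    (hQ : HQ F) {N : ℕ} (hN : N ≠ 0) {z0 : E} (hz0 : z0 ^ N = 1)
    (hE : IntermediateField.adjoin F {z0} = ⊤)
    {m : ℕ} (hm : 0 < m) {ζ : E} (hζ : IsPrimitiveRoot ζ m)
    {A : Type} [Ring A] [Algebra F A] (hA : LibMS46.IsCSA F A)
    (hsym : ∃ (A' : Type) (_ : Ring A') (_ : Algebra K A'),
      IsSymbProd K m (algebraMap E K ζ) A' ∧ BrEq K (K ⊗[F] A) A')
    {T : Type} [Ring T] [Algebra F T] (hT : LibMS46.IsTensorPow F A (finrank E K) T) :
    ∃ n : ℕ, n ≠ 0 ∧ Nonempty (T ≃ₐ[F] Matrix (Fin n) (Fin n) F) := by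
  obtain ⟨A', iR, iA, hA', hBr⟩ := hsym
  have hTcsa := isCSA_pow hA hT
  obtain ⟨_, _, _⟩ := hA
  have hFE : Algebra.IsAlgebraic F E := isAlgebraic_of_adjoin hN hz0 hE
  have hPF : PerfectField F := perfectField_of_div p hF
  have hPE : PerfectField E := Algebra.IsAlgebraic.perfectField (K := F) (L := E)
  have hEΩ : Algebra.IsAlgebraic E (AlgebraicClosure K) := Algebra.IsAlgebraic.trans E K _
  have hFΩ : Algebra.IsAlgebraic F (AlgebraicClosure K) := Algebra.IsAlgebraic.trans F E _
  have hchar : CharP (AlgebraicClosure K) p :=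
    charP_of_injective_algebraMap (algebraMap F (AlgebraicClosure K)).injective p
  obtain ⟨d, hd, ρ, hρ⟩ := exists_rep F (AlgebraicClosure K) A
  have hdne : Nonempty (Fin d) := ⟨⟨0, Nat.pos_of_ne_zero hd⟩⟩
  -- the root of unity
  have hinj : Function.Injective (algebraMap E (AlgebraicClosure K)) :=
    (algebraMap E (AlgebraicClosure K)).injective
  have hζ0 : algebraMap E (AlgebraicClosure K) ζ ≠ 0 := by
    rw [Ne, map_eq_zero]
    exact hζ.ne_zero hm.ne'
  let z : PR E (AlgebraicClosure K) m :=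
    { ζ := Units.mk0 _ hζ0
      pos := hm
      prim := by
        rw [← IsPrimitiveRoot.coe_units_iff]
        exact hζ.map_of_injective hinj
      fix := fun g => by
        ext
        exact g.commutes ζ }
  obtain ⟨v, hv⟩ := exists_isCls E hρ
  have hw : IsCls K ρ (res E K (AlgebraicClosure K) v) := isCls_res hv
  have hwW : res E K (AlgebraicClosure K) v ∈ W (resPR K z) :=
    mem_W_of_brEq (resPR K z) (IsScalarTower.algebraMap_apply E K _ ζ).symm hρ hw hA' hBr
  have hvW : v ^ finrank E K ∈ W z := by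
    have h1 := cor_mem_W z hwW
    rw [cor_cls hρ hv hw, card_emb] at h1
    exact h1
  -- over the field with all roots of unity
  set B := IntermediateField.adjoin E {ξ : AlgebraicClosure K | ∃ k : ℕ, k ≠ 0 ∧ ξ ^ k = 1}
    with hB
  have hT1 : IsScalarTower F B (AlgebraicClosure K) := IsScalarTower.of_algebraMap_eq fun x => rfl
  have hWB : W (resPR B z) = ⊥ :=
    W_eq_bot_of (F := F) p hF
      (fun ξ k hk hξ => ⟨⟨ξ, IntermediateField.subset_adjoin E _ ⟨k, hk, hξ⟩⟩, rfl⟩)
      (infiniteU hQ p hN hz0 hE) (resPR B z)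
  have h2 := res_mem_W (B' := B) z hvW
  rw [hWB, Subgroup.mem_bot, map_pow] at h2
  have hv' : IsCls B ρ (res E B (AlgebraicClosure K) v) := isCls_res hv
  obtain ⟨n', i1, i2, i3, σ, hσ, hσv⟩ := exists_isCls_pow hρ hv' hT
  rw [h2] at hσv
  exact split_of_isCls_one p hF hN hz0 hE hTcsa hσ hσv

end Pool.Agent.LibCocU
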